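import Mathlib
import Pool.Agent.Helper99.TD.Rs

/-!
# Resultants with the cyclotomic polynomial
-/

set_option autoImplicit false

open Finset Polynomial

namespace Pool.Agent.Helper99.MVL

open Pool.Agent.Helper99.TD

section NZ

variable {A B : Type*} [CommRing A] [CommRing B]

/-- the product of the values at the primitive `p`-th roots of unity -/
noncomputable def NZ (p : ℕ) (W : A[X]) : A :=
  resultant (cyclotomic p A) W (p - 1) W.natDegree

lemma NZ_map {p : ℕ} (hp : p.Prime) (W : A[X]) (φ : A →+* B) [IsDomain B] {ζ : B}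
    (hζ : IsPrimitiveRoot ζ p) :
    φ (NZ p W) = ∏ μ ∈ primitiveRoots p B, eval μ (W.map φ) := by
  unfold NZ
  rw [← resultant_map_map, map_cyclotomic, cyclotomic_eq_prod_X_sub_primitiveRoots hζ]
  have h1 := resultant_prod_left (primitiveRoots p B) (fun μ => (X - C μ : B[X])) (W.map φ)
    W.natDegree (by simp) natDegree_map_le
  have h2 : (∏ μ ∈ primitiveRoots p B, (X - C μ : B[X])).natDegree = p - 1 := by
    rw [natDegree_prod_of_monic _ _ fun j _ => monic_X_sub_C _]
    simp only [natDegree_X_sub_C, Finset.sum_const, smul_eq_mul, mul_one]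
    rw [hζ.card_primitiveRoots, Nat.totient_prime hp]
  rw [h2] at h1
  rw [h1]
  refine Finset.prod_congr rfl fun μ _ => ?_
  rw [natDegree_X_sub_C, resultant_X_sub_C_left _ _ _ natDegree_map_le]

end NZ

lemma norm_prod_sub_one {p : ℕ} (hp : p.Prime) :
    ‖∏ μ ∈ primitiveRoots p ℂ, (μ - 1)‖ = p := by
  have : Fact p.Prime := ⟨hp⟩
  have h1 := eval_one_cyclotomic_prime (R := ℂ) (p := p)
  rw [cyclotomic_eq_prod_X_sub_primitiveRoots (Complex.isPrimitiveRoot_exp p hp.ne_zero),
    eval_prod] at h1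
  have h2 : ‖∏ μ ∈ primitiveRoots p ℂ, (μ - 1)‖ = ‖∏ μ ∈ primitiveRoots p ℂ, eval 1 (X - C μ)‖ := by
    rw [norm_prod, norm_prod]
    refine Finset.prod_congr rfl fun μ _ => ?_
    rw [eval_sub, eval_X, eval_C, norm_sub_rev]
  rw [h2, h1, Complex.norm_natCast]

section twist

variable {A B : Type*} [CommRing A] [CommRing B] {k : ℕ}

lemma TP_add_mul (c : Fin k → ℤ) (e : Fin k → ℕ) (y z : Fin k → A) (t : A) :
    TP c e (fun j => y j + t * z j) = C t * TP c e z + TP c e y * 1 := by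
  unfold TP
  rw [mul_one, Finset.mul_sum, ← Finset.sum_add_distrib]
  refine Finset.sum_congr rfl fun j _ => ?_
  simp only [map_add, map_mul]
  ring

lemma RS_mul (c : Fin k → ℤ) (e : Fin k → ℕ) {D : ℕ} (hD : ∀ j, e j ≤ D) (y z : Fin k → A)
    (t : A) : RS c e D y (fun j => y j + t * z j) = t ^ D * RS c e D y z := by
  unfold RS
  rw [TP_add_mul, resultant_add_mul_right _ _ _ _ _ (by simp) (TP_natDegree_le c e y hD),
    resultant_C_mul_right]

/-- the resultant with the derivative -/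
noncomputable def RD (c : Fin k → ℤ) (e : Fin k → ℕ) (D : ℕ) (y : Fin k → A) : A :=
  resultant (TP c e y) (derivative (TP c e y)) D (D - 1)

lemma RD_map (c : Fin k → ℤ) (e : Fin k → ℕ) (D : ℕ) (y : Fin k → A) (φ : A →+* B) :
    φ (RD c e D y) = RD c e D (fun j => φ (y j)) := by
  unfold RD
  rw [← TP_map, derivative_map, resultant_map_map]

/-- the twisted values over the polynomial ring -/
noncomputable def yz (w : Fin k → ℕ) (y : Fin k → A) : Fin k → A[X] :=
  fun j => X ^ (w j) * C (y j)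

/-- the twisted values -/
def yt (μ : A) (w : Fin k → ℕ) (y : Fin k → A) : Fin k → A := fun j => μ ^ (w j) * y j

lemma yz_eval (w : Fin k → ℕ) (y : Fin k → A) (φ : A →+* B) (μ : B) :
    (fun j => eval₂RingHom φ μ (yz w y j)) = yt μ w (fun j => φ (y j)) := by
  funext j
  unfold yz yt
  rw [map_mul, map_pow]
  simp

lemma X_pow_diff (a b : ℕ) : ∃ s : A[X], (X ^ b : A[X]) = X ^ a + (X - 1) * s := by
  have h1 : (X - 1 : A[X]) ∣ X ^ b - X ^ a := by
    have e1 : (X - 1 : A[X]) ∣ X ^ b - 1 := by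
      simpa using sub_dvd_pow_sub_pow (X : A[X]) 1 b
    have e2 : (X - 1 : A[X]) ∣ X ^ a - 1 := by
      simpa using sub_dvd_pow_sub_pow (X : A[X]) 1 a
    have e3 := dvd_sub e1 e2
    have e4 : (X ^ b - 1 - (X ^ a - 1) : A[X]) = X ^ b - X ^ a := by ring
    rwa [e4] at e3
  obtain ⟨s, hs⟩ := h1
  exact ⟨s, by rw [← hs]; ring⟩

/-- divisibility of the resultant of two twists -/
lemma RS_dvd (c : Fin k → ℤ) (e : Fin k → ℕ) {D : ℕ} (hD : ∀ j, e j ≤ D) (w w' : Fin k → ℕ)
    (y : Fin k → A) :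
    ∃ W' : A[X], RS c e D (yz w y) (yz w' y) = (X - 1) ^ D * W' := by
  choose s hs using fun j => X_pow_diff (A := A) (w j) (w' j)
  refine ⟨RS c e D (yz w y) (fun j => s j * C (y j)), ?_⟩
  rw [← RS_mul c e hD]
  congr 1
  funext j
  unfold yz
  rw [hs j]
  ring

/-- the cofactor of the resultant of two twists -/
noncomputable def WW (c : Fin k → ℤ) (e : Fin k → ℕ) (D : ℕ) (w w' : Fin k → ℕ)
    (y : Fin k → A) : A[X] :=
  RS c e D (yz w y) (fun j => (X_pow_diff (A := A) (w j) (w' j)).choose * C (y j))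

lemma WW_eq (c : Fin k → ℤ) (e : Fin k → ℕ) {D : ℕ} (hD : ∀ j, e j ≤ D) (w w' : Fin k → ℕ)
    (y : Fin k → A) : RS c e D (yz w y) (yz w' y) = (X - 1) ^ D * WW c e D w w' y := by
  unfold WW
  rw [← RS_mul c e hD]
  congr 1
  funext j
  unfold yz
  linear_combination C (y j) * (X_pow_diff (A := A) (w j) (w' j)).choose_spec

end twist

end Pool.Agent.Helper99.MVL
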