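import Mathlib
import Pool.Graph.R_seed8.TH53.HR3
import Pool.Graph.R_pool_sql_team_seeded_2aa45f1a.Q98.SG.V
import Pool.Agent.Helper99.TD.Rs

/-!
# Hadamard's inequality for the resultants of a family of complex polynomials
-/

set_option autoImplicit false

open Finset Polynomial

namespace Pool.Agent.Helper99.MVL

open Pool.Agent.Helper99.TD

/-- Hadamard's inequality for points -/
theorem hadamard_points {κ : Type*} [Fintype κ] [DecidableEq κ] (x : κ → ℂ)
    (hx : Function.Injective x) :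
    ∑ i, ∑ j ∈ univ.erase i, Real.log ‖x i - x j‖ ≤
      Fintype.card κ * Real.log (Fintype.card κ) +
        2 * ((Fintype.card κ : ℝ) - 1) * ∑ i, Real.log (max 1 ‖x i‖) := by
  rcases isEmpty_or_nonempty κ with hem | hne
  · simp
  set s := Fintype.card κ with hs
  have hspos : 0 < s := Fintype.card_pos
  let e : Fin s ≃ κ := (Fintype.equivFin κ).symm
  have h1 : ∏ i, ∏ j ∈ univ.erase i, ‖x i - x j‖ =
      ∏ i : Fin s, ∏ j ∈ univ.erase i, ‖x (e i) - x (e j)‖ := by
    rw [← Equiv.prod_comp e]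
    refine prod_congr rfl fun i _ => ?_
    refine (prod_bij (fun j _ => e j) ?_ ?_ ?_ ?_).symm
    · intro j hj
      rw [mem_erase] at hj ⊢
      exact ⟨fun h => hj.1 (e.injective h), mem_univ _⟩
    · intro a _ b _ h
      exact e.injective h
    · intro b hb
      rw [mem_erase] at hb
      refine ⟨e.symm b, ?_, e.apply_symm_apply b⟩
      rw [mem_erase]
      refine ⟨?_, mem_univ _⟩
      rintro rfl
      exact hb.1 (e.apply_symm_apply b).symm
    · intro j _
      rfl
  have h2 : ∏ i : Fin s, (max 1 ‖x (e i)‖) ^ (2 * (s - 1)) =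
      ∏ i, (max 1 ‖x i‖) ^ (2 * (s - 1)) := Equiv.prod_comp e (fun i => (max 1 ‖x i‖) ^ (2 * (s - 1)))
  have h3 : ∏ i, ∏ j ∈ univ.erase i, ‖x i - x j‖ ≤
      (s : ℝ) ^ s * ∏ i, (max 1 ‖x i‖) ^ (2 * (s - 1)) := by
    rw [h1, Pool.Agent.Q98.SG.ordered_prod (fun i : Fin s => x (e i)), ← h2]
    exact Pool.Agent.TH53.HR.vandermonde_le _
  have hne0 : ∀ i, ∀ j ∈ univ.erase i, ‖x i - x j‖ ≠ 0 := by
    intro i j hj
    rw [norm_ne_zero_iff, sub_ne_zero]
    exact fun h => (Finset.ne_of_mem_erase hj) (hx h).symm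
  have hpos : 0 < ∏ i, ∏ j ∈ univ.erase i, ‖x i - x j‖ :=
    Finset.prod_pos fun i _ => Finset.prod_pos fun j hj =>
      lt_of_le_of_ne (norm_nonneg _) (hne0 i j hj).symm
  have h4 := Real.log_le_log hpos h3
  rw [Real.log_prod (fun i _ => Finset.prod_ne_zero_iff.mpr (hne0 i)),
    Finset.sum_congr rfl (fun i _ => Real.log_prod (hne0 i))] at h4
  refine h4.trans (le_of_eq ?_)
  have hspos' : (s:ℝ) ≠ 0 := by exact_mod_cast hspos.ne'
  have hm : ∀ i, (0:ℝ) < max 1 ‖x i‖ := fun i => lt_max_of_lt_left one_pos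
  rw [Real.log_mul (pow_ne_zero _ hspos')
    (Finset.prod_ne_zero_iff.mpr fun i _ => pow_ne_zero _ (hm i).ne'), Real.log_pow,
    Real.log_prod (fun i _ => pow_ne_zero _ (hm i).ne')]
  congr 1
  rw [Finset.mul_sum]
  refine Finset.sum_congr rfl fun i _ => ?_
  rw [Real.log_pow]
  push_cast [Nat.cast_sub hspos]
  ring

/-- the resultant of a polynomial and its derivative -/
lemma log_resultant_deriv {g : ℂ[X]} {D : ℕ} (hD : 0 < D) {α : Fin D → ℂ} (hg0 : g ≠ 0)
    (hα : g.roots = Multiset.map α Finset.univ.val)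
    (hres : resultant g (derivative g) D (D - 1) ≠ 0) :
    Function.Injective α ∧ Real.log ‖resultant g (derivative g) D (D - 1)‖ =
      (2 * D - 1) * Real.log ‖g.leadingCoeff‖ +
        ∑ j, ∑ j' ∈ univ.erase j, Real.log ‖α j - α j'‖ := by
  classical
  have hgl : g.leadingCoeff ≠ 0 := leadingCoeff_ne_zero.mpr hg0
  have hgd : g.natDegree = D := by
    rw [(IsAlgClosed.splits g).natDegree_eq_card_roots, hα]
    simp
  have hder : ∀ j, eval (α j) (derivative g) =
      g.leadingCoeff * ∏ j' ∈ univ.erase j, (α j - α j') := by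
    intro j
    conv_lhs => rw [eq_prod g hα]
    rw [derivative_C_mul, eval_mul, eval_C]
    congr 1
    rw [derivative_prod_finset, eval_finsetSum, Finset.sum_eq_single j]
    · rw [eval_mul, eval_prod]
      simp
    · intro i _ hij
      rw [eval_mul, eval_prod, Finset.prod_eq_zero (i := j), zero_mul]
      · exact Finset.mem_erase.mpr ⟨hij.symm, Finset.mem_univ _⟩
      · simp
    · intro h; exact absurd (Finset.mem_univ _) h
  have hR : resultant g (derivative g) D (D - 1) = g.leadingCoeff ^ (D - 1) *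
      ∏ j, (g.leadingCoeff * ∏ j' ∈ univ.erase j, (α j - α j')) := by
    have h1 := resultant_eq_prod_eval g (derivative g) (D - 1)
      (by rw [← hgd]; exact natDegree_derivative_le g) (IsAlgClosed.splits g)
    rw [hgd] at h1
    rw [h1, hα, Multiset.map_map]
    congr 1
    change ∏ j, eval (α j) (derivative g) = _
    exact Finset.prod_congr rfl fun j _ => hder j
  rw [hR] at hres ⊢
  have hne1 : ∀ j, g.leadingCoeff * ∏ j' ∈ univ.erase j, (α j - α j') ≠ 0 := by
    intro j
    exact Finset.prod_ne_zero_iff.mp (right_ne_zero_of_mul hres) j (Finset.mem_univ _)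
  have hne2 : ∀ j, ∀ j' ∈ univ.erase j, α j - α j' ≠ 0 := by
    intro j j' hj'
    exact Finset.prod_ne_zero_iff.mp (right_ne_zero_of_mul (hne1 j)) j' hj'
  refine ⟨?_, ?_⟩
  · intro j j' hjj'
    by_contra hcon
    exact hne2 j j' (Finset.mem_erase.mpr ⟨fun h => hcon h.symm, Finset.mem_univ _⟩)
      (sub_eq_zero.mpr hjj')
  · rw [norm_mul, norm_pow, norm_prod, Real.log_mul (by positivity)
      (Finset.prod_ne_zero_iff.mpr fun j _ => norm_ne_zero_iff.mpr (hne1 j)), Real.log_pow,
      Real.log_prod (fun j _ => norm_ne_zero_iff.mpr (hne1 j))]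
    have h2 : ∀ j, Real.log ‖g.leadingCoeff * ∏ j' ∈ univ.erase j, (α j - α j')‖ =
        Real.log ‖g.leadingCoeff‖ + ∑ j' ∈ univ.erase j, Real.log ‖α j - α j'‖ := by
      intro j
      rw [norm_mul, norm_prod, Real.log_mul (norm_ne_zero_iff.mpr hgl)
        (Finset.prod_ne_zero_iff.mpr fun j' hj' => norm_ne_zero_iff.mpr (hne2 j j' hj')),
        Real.log_prod (fun j' hj' => norm_ne_zero_iff.mpr (hne2 j j' hj'))]
    rw [Finset.sum_congr rfl fun j _ => h2 j, Finset.sum_add_distrib, Finset.sum_const,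
      Finset.card_univ, Fintype.card_fin, nsmul_eq_mul]
    push_cast [Nat.cast_sub (show 1 ≤ D from hD)]
    ring

/-- the discriminant inequality for a family of polynomials -/
theorem family_disc {ι : Type*} [Fintype ι] [DecidableEq ι] [Nonempty ι] {D : ℕ} (hD : 0 < D)
    (g : ι → ℂ[X]) (hdeg : ∀ i, (g i).natDegree = D)
    (hres : ∀ i i', i ≠ i' → resultant (g i) (g i') D D ≠ 0)
    (hsep : ∀ i, resultant (g i) (derivative (g i)) D (D - 1) ≠ 0) :
    ∑ i, ∑ i' ∈ univ.erase i, Real.log ‖resultant (g i) (g i') D D‖ +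
      ∑ i, Real.log ‖resultant (g i) (derivative (g i)) D (D - 1)‖ ≤
    (Fintype.card ι * D : ℝ) * Real.log (Fintype.card ι * D) +
      (2 * (Fintype.card ι * D) - 1) * ∑ i, (g i).logMahlerMeasure := by
  classical
  choose α hα using fun i => exists_roots_fun (g i) (hdeg i)
  have hg0 : ∀ i, g i ≠ 0 := by
    intro i h
    have := hdeg i
    rw [h, natDegree_zero] at this
    omega
  have hm : ∀ i, (g i).logMahlerMeasure =
      Real.log ‖(g i).leadingCoeff‖ + ∑ j, Real.log (max 1 ‖α i j‖) := by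
    intro i
    rw [logMahlerMeasure_eq_log_leadingCoeff_add_sum_log_roots, hα i, Multiset.map_map]
    congr 1
    change ∑ j, Real.posLog ‖α i j‖ = _
    refine Finset.sum_congr rfl fun j _ => ?_
    rw [Real.posLog_eq_log_max_one (norm_nonneg _)]
  have hLR : ∀ i i', i ≠ i' → (∀ j j', α i j ≠ α i' j') ∧
      Real.log ‖resultant (g i) (g i') D D‖ = D * Real.log ‖(g i).leadingCoeff‖ +
      D * Real.log ‖(g i').leadingCoeff‖ + ∑ j, ∑ j', Real.log ‖α i j - α i' j'‖ :=
    fun i i' hii' => log_resultant (hg0 i) (hg0 i') (hα i) (hα i') (hres i i' hii')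
  have hLD := fun i => log_resultant_deriv hD (hg0 i) (hα i) (hsep i)
  have hinj : Function.Injective (fun q : ι × Fin D => α q.1 q.2) := by
    rintro ⟨i, j⟩ ⟨i', j'⟩ h
    dsimp only at h
    by_cases hii' : i = i'
    · subst hii'
      rw [(hLD i).1 h]
    · exact absurd h ((hLR i i' hii').1 j j')
  have hH := hadamard_points _ hinj
  rw [Fintype.card_prod, Fintype.card_fin] at hH
  -- split the double sum
  have hsplit : ∑ q : ι × Fin D, ∑ q' ∈ univ.erase q, Real.log ‖α q.1 q.2 - α q'.1 q'.2‖ =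
      ∑ i, ∑ i' ∈ univ.erase i, ∑ j, ∑ j', Real.log ‖α i j - α i' j'‖ +
      ∑ i, ∑ j, ∑ j' ∈ univ.erase j, Real.log ‖α i j - α i j'‖ := by
    have e1 : ∀ q : ι × Fin D, ∑ q' ∈ univ.erase q, Real.log ‖α q.1 q.2 - α q'.1 q'.2‖ =
        ∑ q' : ι × Fin D, Real.log ‖α q.1 q.2 - α q'.1 q'.2‖ := by
      intro q
      rw [← Finset.add_sum_erase _ _ (Finset.mem_univ q), sub_self, norm_zero, Real.log_zero,
        zero_add]
    have e2 : ∀ i j, ∑ j' ∈ univ.erase j, Real.log ‖α i j - α i j'‖ =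
        ∑ j', Real.log ‖α i j - α i j'‖ := by
      intro i j
      rw [← Finset.add_sum_erase (Finset.univ : Finset (Fin D)) _ (Finset.mem_univ j), sub_self,
        norm_zero, Real.log_zero, zero_add]
    rw [Finset.sum_congr rfl fun q _ => e1 q, Finset.sum_congr rfl fun i _ =>
      Finset.sum_congr rfl fun j _ => e2 i j, Fintype.sum_prod_type, ← Finset.sum_add_distrib]
    refine Finset.sum_congr rfl fun i _ => ?_
    dsimp only
    have e3 : ∀ j, ∑ q' : ι × Fin D, Real.log ‖α i j - α q'.1 q'.2‖ =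
        ∑ i', ∑ j', Real.log ‖α i j - α i' j'‖ := by
      intro j
      rw [Fintype.sum_prod_type]
    rw [Finset.sum_congr rfl fun j _ => e3 j, Finset.sum_comm,
      ← Finset.add_sum_erase _ _ (Finset.mem_univ i), add_comm]
  rw [hsplit] at hH
  have hA : ∑ i, ∑ i' ∈ univ.erase i, Real.log ‖resultant (g i) (g i') D D‖ =
      2 * D * (Fintype.card ι - 1) * ∑ i, Real.log ‖(g i).leadingCoeff‖ +
      ∑ i, ∑ i' ∈ univ.erase i, ∑ j, ∑ j', Real.log ‖α i j - α i' j'‖ := by
    have h1 : ∀ i, ∑ i' ∈ univ.erase i, Real.log ‖resultant (g i) (g i') D D‖ =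
        ((Fintype.card ι - 1) * (D * Real.log ‖(g i).leadingCoeff‖) +
        (∑ i', D * Real.log ‖(g i').leadingCoeff‖ - D * Real.log ‖(g i).leadingCoeff‖)) +
        ∑ i' ∈ univ.erase i, ∑ j, ∑ j', Real.log ‖α i j - α i' j'‖ := by
      intro i
      rw [Finset.sum_congr rfl fun i' hi' => (hLR i i' (Finset.ne_of_mem_erase hi').symm).2,
        Finset.sum_add_distrib, Finset.sum_add_distrib, Finset.sum_const,
        Finset.card_erase_of_mem (Finset.mem_univ i), Finset.card_univ, nsmul_eq_mul,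
        Nat.cast_pred (Fintype.card_pos_iff.mpr ⟨i⟩)]
      congr 2
      rw [← Finset.add_sum_erase (Finset.univ : Finset ι)
        (fun i' => (D:ℝ) * Real.log ‖(g i').leadingCoeff‖) (Finset.mem_univ i)]
      ring
    rw [Finset.sum_congr rfl fun i _ => h1 i, Finset.sum_add_distrib, Finset.sum_add_distrib,
      Finset.sum_sub_distrib, Finset.sum_const, Finset.card_univ, nsmul_eq_mul,
      ← Finset.mul_sum, ← Finset.mul_sum]
    ring
  have hB : ∑ i, Real.log ‖resultant (g i) (derivative (g i)) D (D - 1)‖ =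
      (2 * D - 1) * ∑ i, Real.log ‖(g i).leadingCoeff‖ +
      ∑ i, ∑ j, ∑ j' ∈ univ.erase j, Real.log ‖α i j - α i j'‖ := by
    rw [Finset.sum_congr rfl fun i _ => (hLD i).2, Finset.sum_add_distrib, ← Finset.mul_sum]
  have hC : ∑ i, (g i).logMahlerMeasure = ∑ i, Real.log ‖(g i).leadingCoeff‖ +
      ∑ i, ∑ j, Real.log (max 1 ‖α i j‖) := by
    rw [Finset.sum_congr rfl fun i _ => hm i, Finset.sum_add_distrib]
  have hlp : 0 ≤ ∑ i, ∑ j, Real.log (max 1 ‖α i j‖) :=
    Finset.sum_nonneg fun i _ => Finset.sum_nonneg fun j _ =>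
      Real.log_nonneg (le_max_left _ _)
  have hsumq : ∑ q : ι × Fin D, Real.log (max 1 ‖α q.1 q.2‖) =
      ∑ i, ∑ j, Real.log (max 1 ‖α i j‖) := by
    rw [Fintype.sum_prod_type]
  rw [hsumq] at hH
  rw [hA, hB, hC]
  push_cast at hH
  nlinarith [hH, hlp]

end Pool.Agent.Helper99.MVL
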