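import Mathlib
import Pool.Agent.Helper99.MVL.Hd
import Pool.Agent.Helper99.MVL.Cy
import Pool.Agent.Helper99.TD.Av

/-!
# The averaged discriminant inequality
-/

set_option autoImplicit false

open Finset Polynomial MeasureTheory

namespace Pool.Agent.Helper99.MVL

open Pool.Agent.Helper99.TD

variable {ι : Type*} [Fintype ι] [DecidableEq ι] {k : ℕ}

/-- the averaged discriminant inequality -/
theorem averaged {p : ℕ} (hp : p.Prime) {A : Type*} [CommRing A] (φ : A →+* ℤ[X])
    (c : Fin k → ℤ) (e : Fin k → ℕ) {D : ℕ} (hDpos : 0 < D) (hD : ∀ j, e j ≤ D)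
    (y : Fin k → A) (w : ι → Fin k → ℕ) [Nonempty ι]
    (hR : ∀ i i', i ≠ i' → φ (NZ p (WW c e D (w i) (w i') y)) ≠ 0)
    (hS : ∀ i, φ (NZ p (RD c e D (yz (w i) y))) ≠ 0)
    (U : ℂ → ι → ℝ → ℝ) (hUc : ∀ μ i, Continuous (U μ i))
    (hU : ∀ μ ∈ primitiveRoots p ℂ, ∀ i τ, TP c e (yt μ (w i)
      (fun j => eval₂ (Int.castRingHom ℂ) (ep τ) (φ (y j)))) ≠ 0 → (TP c e (yt μ (w i)
      (fun j => eval₂ (Int.castRingHom ℂ) (ep τ) (φ (y j))))).logMahlerMeasure ≤ U μ i τ) :
    (Fintype.card ι * (Fintype.card ι - 1) : ℝ) * (D * Real.log p) ≤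
      ((p:ℝ) - 1) * ((Fintype.card ι * D : ℝ) * Real.log (Fintype.card ι * D)) +
      (2 * (Fintype.card ι * D) - 1) * ∑ μ ∈ primitiveRoots p ℂ, ∑ i, ∫ τ in (0:ℝ)..1, U μ i τ := by
  classical
  have hζ := Complex.isPrimitiveRoot_exp p hp.ne_zero
  have hcardp : ((primitiveRoots p ℂ).card : ℝ) = (p:ℝ) - 1 := by
    rw [hζ.card_primitiveRoots, Nat.totient_prime hp, Nat.cast_pred hp.pos]
  set R : ι → ι → ℤ[X] := fun i i' => φ (NZ p (WW c e D (w i) (w i') y)) with hRdef
  set S : ι → ℤ[X] := fun i => φ (NZ p (RD c e D (yz (w i) y))) with hSdef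
  set n : ℝ := (Fintype.card ι * D : ℝ) with hn
  -- lower bounds
  have hlowR : ∀ i i', i ≠ i' → 0 ≤ ∫ τ in (0:ℝ)..1,
      Real.log ‖eval (ep τ) ((R i i').map (Int.castRingHom ℂ))‖ := by
    intro i i' hii'
    have h1 := lmm_int_nonneg (hR i i' hii')
    rw [logMahlerMeasure_def, circle_int] at h1
    exact h1
  have hlowS : ∀ i, 0 ≤ ∫ τ in (0:ℝ)..1,
      Real.log ‖eval (ep τ) ((S i).map (Int.castRingHom ℂ))‖ := by
    intro i
    have h1 := lmm_int_nonneg (hS i)
    rw [logMahlerMeasure_def, circle_int] at h1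
    exact h1
  set L : ℝ → ℝ := fun τ => ∑ i, ∑ i' ∈ univ.erase i,
      (D * Real.log p + Real.log ‖eval (ep τ) ((R i i').map (Int.castRingHom ℂ))‖) +
      ∑ i, Real.log ‖eval (ep τ) ((S i).map (Int.castRingHom ℂ))‖ with hL
  have hLint : IntervalIntegrable L volume 0 1 := by
    rw [hL]
    apply IntervalIntegrable.add
    · apply ii_sum
      intro i _
      apply ii_sum
      intro i' _
      exact intervalIntegrable_const.add (log_int _)
    · apply ii_sum
      intro i _
      exact log_int _
  have hlow : (Fintype.card ι * (Fintype.card ι - 1) : ℝ) * (D * Real.log p) ≤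
      ∫ τ in (0:ℝ)..1, L τ := by
    rw [hL, intervalIntegral.integral_add]
    · rw [intervalIntegral.integral_finsetSum, intervalIntegral.integral_finsetSum]
      · have h1 : ∀ i : ι, (∫ τ in (0:ℝ)..1, ∑ i' ∈ univ.erase i,
            (D * Real.log p + Real.log ‖eval (ep τ) ((R i i').map (Int.castRingHom ℂ))‖)) =
            ∑ i' ∈ univ.erase i, (D * Real.log p + ∫ τ in (0:ℝ)..1,
              Real.log ‖eval (ep τ) ((R i i').map (Int.castRingHom ℂ))‖) := by
          intro i
          rw [intervalIntegral.integral_finsetSum]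
          · refine Finset.sum_congr rfl fun i' _ => ?_
            rw [intervalIntegral.integral_add intervalIntegrable_const (log_int _),
              intervalIntegral.integral_const]
            simp
          · intro i' _
            exact intervalIntegrable_const.add (log_int _)
        rw [Finset.sum_congr rfl fun i _ => h1 i]
        have h2 : (Fintype.card ι * (Fintype.card ι - 1) : ℝ) * (D * Real.log p) =
            ∑ i : ι, ∑ i' ∈ univ.erase i, D * Real.log p := by
          have h1 : ∀ i : ι, ∑ i' ∈ univ.erase i, D * Real.log p =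
              ((Fintype.card ι : ℝ) - 1) * (D * Real.log p) := by
            intro i
            rw [Finset.sum_const, Finset.card_erase_of_mem (Finset.mem_univ i),
              Finset.card_univ, nsmul_eq_mul, Nat.cast_pred (Fintype.card_pos_iff.mpr ⟨i⟩)]
          rw [Finset.sum_congr rfl fun i _ => h1 i, Finset.sum_const, Finset.card_univ,
            nsmul_eq_mul]
          ring
        rw [h2]
        have h3 : 0 ≤ ∑ i, ∫ τ in (0:ℝ)..1,
            Real.log ‖eval (ep τ) ((S i).map (Int.castRingHom ℂ))‖ :=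
          Finset.sum_nonneg fun i _ => hlowS i
        have h4 : ∑ i : ι, ∑ i' ∈ univ.erase i, D * Real.log p ≤
            ∑ i : ι, ∑ i' ∈ univ.erase i, (D * Real.log p + ∫ τ in (0:ℝ)..1,
              Real.log ‖eval (ep τ) ((R i i').map (Int.castRingHom ℂ))‖) := by
          refine Finset.sum_le_sum fun i _ => Finset.sum_le_sum fun i' hi' => ?_
          have := hlowR i i' (Finset.ne_of_mem_erase hi').symm
          linarith
        linarith
      · intro i _
        exact log_int _
      · intro i _
        apply ii_sum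
        intro i' _
        exact intervalIntegrable_const.add (log_int _)
    · apply ii_sum
      intro i _
      apply ii_sum
      intro i' _
      exact intervalIntegrable_const.add (log_int _)
    · apply ii_sum
      intro i _
      exact log_int _
  refine hlow.trans ?_
  set G : ℝ → ℝ := fun τ => ((p:ℝ) - 1) * (n * Real.log n) +
    (2 * n - 1) * ∑ μ ∈ primitiveRoots p ℂ, ∑ i, U μ i τ with hG
  have hGc : Continuous G := by
    rw [hG]
    apply Continuous.add continuous_const
    apply Continuous.mul continuous_const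
    exact continuous_finsetSum _ fun μ _ => continuous_finsetSum _ fun i _ => hUc μ i
  have hGint : ∫ τ in (0:ℝ)..1, G τ = ((p:ℝ) - 1) * (n * Real.log n) +
      (2 * n - 1) * ∑ μ ∈ primitiveRoots p ℂ, ∑ i, ∫ τ in (0:ℝ)..1, U μ i τ := by
    rw [hG, intervalIntegral.integral_add intervalIntegrable_const, intervalIntegral.integral_const,
      intervalIntegral.integral_const_mul, intervalIntegral.integral_finsetSum]
    · simp only [sub_zero, one_smul]
      congr 2
      refine Finset.sum_congr rfl fun μ _ => ?_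
      rw [intervalIntegral.integral_finsetSum]
      intro i _
      exact (hUc μ i).intervalIntegrable _ _
    · intro μ _
      exact (continuous_finsetSum _ fun i _ => hUc μ i).intervalIntegrable _ _
    · apply Continuous.intervalIntegrable
      apply Continuous.mul continuous_const
      exact continuous_finsetSum _ fun μ _ => continuous_finsetSum _ fun i _ => hUc μ i
  rw [← hGint]
  apply intervalIntegral.integral_mono_ae zero_le_one hLint (hGc.intervalIntegrable _ _)
  have hae : ∀ᵐ τ : ℝ, (∀ i i', i ≠ i' → eval (ep τ) ((R i i').map (Int.castRingHom ℂ)) ≠ 0) ∧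
      ∀ i, eval (ep τ) ((S i).map (Int.castRingHom ℂ)) ≠ 0 := by
    apply Filter.Eventually.and
    · rw [ae_all_iff]
      intro i
      rw [ae_all_iff]
      intro i'
      rw [ae_all_iff]
      intro hii'
      apply ae_eval_ne
      rw [Ne, Polynomial.map_eq_zero_iff (RingHom.injective_int _)]
      exact hR i i' hii'
    · rw [ae_all_iff]
      intro i
      apply ae_eval_ne
      rw [Ne, Polynomial.map_eq_zero_iff (RingHom.injective_int _)]
      exact hS i
  filter_upwards [hae] with τ hτ
  set χ : A →+* ℂ := (eval₂RingHom (Int.castRingHom ℂ) (ep τ)).comp φ with hχ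
  have hχy : (fun j => χ (y j)) = fun j => eval₂ (Int.castRingHom ℂ) (ep τ) (φ (y j)) := rfl
  set g : ℂ → ι → ℂ[X] := fun μ i => TP c e (yt μ (w i) (fun j => χ (y j))) with hg
  have hpos : ∀ q : A, eval (ep τ) ((φ q).map (Int.castRingHom ℂ)) = χ q := by
    intro q
    rw [eval_map]
    rfl
  have hRev : ∀ i i', eval (ep τ) ((R i i').map (Int.castRingHom ℂ)) =
      ∏ μ ∈ primitiveRoots p ℂ, eval μ ((WW c e D (w i) (w i') y).map χ) := by
    intro i i'
    rw [hRdef]
    dsimp only
    rw [hpos, NZ_map hp _ χ hζ]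
  have hSev : ∀ i, eval (ep τ) ((S i).map (Int.castRingHom ℂ)) =
      ∏ μ ∈ primitiveRoots p ℂ, eval μ ((RD c e D (yz (w i) y)).map χ) := by
    intro i
    rw [hSdef]
    dsimp only
    rw [hpos, NZ_map hp _ χ hζ]
  have hres : ∀ μ i i', resultant (g μ i) (g μ i') D D =
      (μ - 1) ^ D * eval μ ((WW c e D (w i) (w i') y).map χ) := by
    intro μ i i'
    have h1 := congrArg (eval₂RingHom χ μ) (WW_eq c e hD (w i) (w i') y)
    rw [RS_map, yz_eval, yz_eval] at h1
    change RS c e D (yt μ (w i) fun j => χ (y j)) (yt μ (w i') fun j => χ (y j)) = _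
    rw [h1, map_mul, map_pow, map_sub, map_one]
    simp only [coe_eval₂RingHom, eval₂_X]
    rw [eval_map]
  have hder : ∀ μ i, resultant (g μ i) (derivative (g μ i)) D (D - 1) =
      eval μ ((RD c e D (yz (w i) y)).map χ) := by
    intro μ i
    have h1 := RD_map c e D (yz (w i) y) (eval₂RingHom χ μ)
    rw [yz_eval] at h1
    change RD c e D (yt μ (w i) fun j => χ (y j)) = _
    rw [← h1, eval_map]
    rfl
  have hRne : ∀ i i', i ≠ i' → ∀ μ ∈ primitiveRoots p ℂ,
      eval μ ((WW c e D (w i) (w i') y).map χ) ≠ 0 := by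
    intro i i' hii' μ hμ
    have h1 := hτ.1 i i' hii'
    rw [hRev] at h1
    exact Finset.prod_ne_zero_iff.mp h1 μ hμ
  have hSne : ∀ i, ∀ μ ∈ primitiveRoots p ℂ, eval μ ((RD c e D (yz (w i) y)).map χ) ≠ 0 := by
    intro i μ hμ
    have h1 := hτ.2 i
    rw [hSev] at h1
    exact Finset.prod_ne_zero_iff.mp h1 μ hμ
  have hμ1 : ∀ μ ∈ primitiveRoots p ℂ, μ - 1 ≠ 0 := by
    intro μ hμ
    have h1 := norm_prod_sub_one hp
    have h2 : ∏ μ ∈ primitiveRoots p ℂ, (μ - 1) ≠ 0 := by
      rw [← norm_pos_iff, h1]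
      exact_mod_cast hp.pos
    exact Finset.prod_ne_zero_iff.mp h2 μ hμ
  have hlogp : ∑ μ ∈ primitiveRoots p ℂ, Real.log ‖μ - 1‖ = Real.log p := by
    rw [← norm_prod_sub_one hp, norm_prod, Real.log_prod]
    intro μ hμ
    exact norm_ne_zero_iff.mpr (hμ1 μ hμ)
  have hLτ : L τ = ∑ μ ∈ primitiveRoots p ℂ, (∑ i, ∑ i' ∈ univ.erase i,
      Real.log ‖resultant (g μ i) (g μ i') D D‖ +
      ∑ i, Real.log ‖resultant (g μ i) (derivative (g μ i)) D (D - 1)‖) := by
    rw [Finset.sum_add_distrib]
    rw [hL]
    dsimp only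
    congr 1
    · rw [Finset.sum_comm]
      refine Finset.sum_congr rfl fun i _ => ?_
      rw [Finset.sum_comm]
      refine Finset.sum_congr rfl fun i' hi' => ?_
      have hii' := (Finset.ne_of_mem_erase hi').symm
      rw [hRev, norm_prod, Real.log_prod (fun μ hμ => norm_ne_zero_iff.mpr (hRne i i' hii' μ hμ)),
        ← hlogp, Finset.mul_sum, ← Finset.sum_add_distrib]
      refine Finset.sum_congr rfl fun μ hμ => ?_
      rw [hres, norm_mul, norm_pow, Real.log_mul (pow_ne_zero _ (norm_ne_zero_iff.mpr (hμ1 μ hμ)))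
        (norm_ne_zero_iff.mpr (hRne i i' hii' μ hμ)), Real.log_pow]
    · rw [Finset.sum_comm]
      refine Finset.sum_congr rfl fun i _ => ?_
      rw [hSev, norm_prod, Real.log_prod (fun μ hμ => norm_ne_zero_iff.mpr (hSne i μ hμ))]
      refine Finset.sum_congr rfl fun μ hμ => ?_
      rw [hder]
  rw [hLτ]
  have hmain : ∀ μ ∈ primitiveRoots p ℂ, (∑ i, ∑ i' ∈ univ.erase i,
      Real.log ‖resultant (g μ i) (g μ i') D D‖ +
      ∑ i, Real.log ‖resultant (g μ i) (derivative (g μ i)) D (D - 1)‖) ≤
      n * Real.log n + (2 * n - 1) * ∑ i, U μ i τ := by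
    intro μ hμ
    have hsep : ∀ i, resultant (g μ i) (derivative (g μ i)) D (D - 1) ≠ 0 := by
      intro i
      rw [hder]
      exact hSne i μ hμ
    have hdegle : ∀ i, (g μ i).natDegree ≤ D := fun i => TP_natDegree_le c e _ hD
    have hdeg : ∀ i, (g μ i).natDegree = D := by
      intro i
      by_contra hcon
      have hlt : (g μ i).natDegree < D := lt_of_le_of_ne (hdegle i) hcon
      rcases Nat.eq_zero_or_pos (D - 1) with h1 | h1
      · -- D = 1
        have hD1 : D = 1 := by omega
        apply hsep i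
        have h2 : derivative (g μ i) = 0 := by
          apply derivative_of_natDegree_zero
          omega
        rw [h2, h1, hD1]
        simp
      · apply hsep i
        apply resultant_eq_zero_of_lt_lt _ _ _ _ hlt
        have := natDegree_derivative_le (g μ i)
        omega
    have h1 := family_disc hDpos (g μ) hdeg (fun i i' hii' => by
      rw [hres]
      exact mul_ne_zero (pow_ne_zero _ (hμ1 μ hμ)) (hRne i i' hii' μ hμ)) hsep
    refine h1.trans ?_
    have hn1 : 1 ≤ n := by
      rw [hn]
      have h2 : (1:ℝ) ≤ Fintype.card ι := by exact_mod_cast Fintype.card_pos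
      have h3 : (1:ℝ) ≤ D := by exact_mod_cast hDpos
      nlinarith
    have h2 : ∑ i, (g μ i).logMahlerMeasure ≤ ∑ i, U μ i τ :=
      Finset.sum_le_sum fun i _ => hU μ hμ i τ (by
        intro h0
        have h5 := hdeg i
        rw [hg] at h5
        dsimp only at h5
        rw [hχy, h0, natDegree_zero] at h5
        omega)
    have h3 : (0:ℝ) ≤ 2 * n - 1 := by linarith
    have h4 := mul_le_mul_of_nonneg_left h2 h3
    linarith
  refine (Finset.sum_le_sum hmain).trans (le_of_eq ?_)
  rw [Finset.sum_add_distrib, Finset.sum_const, nsmul_eq_mul, hcardp, ← Finset.mul_sum]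

end Pool.Agent.Helper99.MVL
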