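import Mathlib
import Pool.Graph.R_seed8.H261R2.CM.F

/-!
# Equidistribution along two dimensional subtori
-/

set_option autoImplicit false

open Finset MeasureTheory Filter

namespace Pool.Agent.Helper99.MVL

open Pool.Agent.H261R2.CM

variable {m : ℕ}

/-- the point of the cube with free coordinate `t` at `i0` and coordinates `e l * τ` elsewhere -/
def pt2 (i0 : Fin (m + 1)) (e : Fin m → ℕ) (t τ : ℝ) : Fin (m + 1) → ℝ :=
  i0.insertNth t (fun l => (e l : ℝ) * τ)

lemma pt2_same (i0 : Fin (m + 1)) (e : Fin m → ℕ) (t τ : ℝ) : pt2 i0 e t τ i0 = t := by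
  simp [pt2]

lemma pt2_other (i0 : Fin (m + 1)) (e : Fin m → ℕ) (t τ : ℝ) (l : Fin m) :
    pt2 i0 e t τ (i0.succAbove l) = (e l : ℝ) * τ := by
  simp [pt2]

lemma pt2_cont (i0 : Fin (m + 1)) (e : Fin m → ℕ) :
    Continuous (fun q : ℝ × ℝ => pt2 i0 e q.1 q.2) := by
  refine continuous_pi fun j => ?_
  rcases Fin.eq_self_or_eq_succAbove i0 j with h | ⟨l, h⟩
  · subst h
    simp only [pt2_same]
    fun_prop
  · subst h
    simp only [pt2_other]
    fun_prop

/-- the point on the torus -/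
def PT (c : Fin (m + 1) → ℝ) (i0 : Fin (m + 1)) (e : Fin m → ℕ) (t τ : ℝ) :
    UnitAddTorus (Fin (m + 1)) := F_pt (c + pt2 i0 e t τ)

lemma PT_cont (c : Fin (m + 1) → ℝ) (i0 : Fin (m + 1)) (e : Fin m → ℕ) :
    Continuous (fun q : ℝ × ℝ => PT c i0 e q.1 q.2) :=
  F_continuous_pt.comp (continuous_const.add (pt2_cont i0 e))

lemma mFourier_PT (s : Fin (m + 1) → ℤ) (c : Fin (m + 1) → ℝ) (i0 : Fin (m + 1)) (e : Fin m → ℕ)
    (t τ : ℝ) :
    UnitAddTorus.mFourier s (PT c i0 e t τ) =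
      (∏ i, Complex.exp (2 * (Real.pi : ℂ) * Complex.I * (s i) * ((c i : ℝ) : ℂ))) *
      (Complex.exp (2 * (Real.pi : ℂ) * Complex.I * ((s i0 : ℤ) : ℂ) * ((t : ℝ) : ℂ)) *
      Complex.exp (2 * (Real.pi : ℂ) * Complex.I *
        ((∑ l, s (i0.succAbove l) * (e l : ℤ) : ℤ) : ℂ) * ((τ : ℝ) : ℂ))) := by
  unfold PT
  rw [F_mFourier_pt]
  have h1 : ∀ i, Complex.exp (2 * (Real.pi : ℂ) * Complex.I * (s i) *
      (((c + pt2 i0 e t τ) i : ℝ) : ℂ)) =
      Complex.exp (2 * (Real.pi : ℂ) * Complex.I * (s i) * ((c i : ℝ) : ℂ)) *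
      Complex.exp (2 * (Real.pi : ℂ) * Complex.I * (s i) * ((pt2 i0 e t τ i : ℝ) : ℂ)) := by
    intro i
    rw [← Complex.exp_add]
    congr 1
    simp only [Pi.add_apply]
    push_cast
    ring
  rw [Finset.prod_congr rfl fun i _ => h1 i, Finset.prod_mul_distrib]
  congr 1
  rw [Fin.prod_univ_succAbove _ i0, pt2_same]
  congr 1
  rw [← Complex.exp_sum]
  congr 1
  simp only [pt2_other]
  push_cast
  rw [Finset.mul_sum, Finset.sum_mul]
  refine Finset.sum_congr rfl fun l _ => ?_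
  ring

lemma int_mFourier_PT (s : Fin (m + 1) → ℤ) (c : Fin (m + 1) → ℝ) (i0 : Fin (m + 1))
    (e : Fin m → ℕ) :
    ∫ τ in (0:ℝ)..1, ∫ t in (0:ℝ)..1, UnitAddTorus.mFourier s (PT c i0 e t τ) =
      (∏ i, Complex.exp (2 * (Real.pi : ℂ) * Complex.I * (s i) * ((c i : ℝ) : ℂ))) *
      ((if s i0 = 0 then 1 else 0) * (if ∑ l, s (i0.succAbove l) * (e l : ℤ) = 0 then 1 else 0)) := by
  simp_rw [mFourier_PT]
  have h1 : ∀ τ : ℝ, ∫ t in (0:ℝ)..1,
      (∏ i, Complex.exp (2 * (Real.pi : ℂ) * Complex.I * (s i) * ((c i : ℝ) : ℂ))) *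
      (Complex.exp (2 * (Real.pi : ℂ) * Complex.I * ((s i0 : ℤ) : ℂ) * ((t : ℝ) : ℂ)) *
      Complex.exp (2 * (Real.pi : ℂ) * Complex.I *
        ((∑ l, s (i0.succAbove l) * (e l : ℤ) : ℤ) : ℂ) * ((τ : ℝ) : ℂ))) =
      (∏ i, Complex.exp (2 * (Real.pi : ℂ) * Complex.I * (s i) * ((c i : ℝ) : ℂ))) *
      ((if s i0 = 0 then 1 else 0) *
      Complex.exp (2 * (Real.pi : ℂ) * Complex.I *
        ((∑ l, s (i0.succAbove l) * (e l : ℤ) : ℤ) : ℂ) * ((τ : ℝ) : ℂ))) := by
    intro τ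
    rw [intervalIntegral.integral_const_mul, intervalIntegral.integral_mul_const, F_int_exp]
  simp_rw [h1]
  rw [intervalIntegral.integral_const_mul, intervalIntegral.integral_const_mul, F_int_exp]

/-- key lemma: equidistribution -/
lemma equi2 (𝓕 : Filter ℕ) (e : ℕ → Fin m → ℕ) (he : AsympIndep 𝓕 e) (c : Fin (m + 1) → ℝ)
    (i0 : Fin (m + 1)) (G : C(UnitAddTorus (Fin (m + 1)), ℂ)) :
    Tendsto (fun n => ∫ τ in (0:ℝ)..1, ∫ t in (0:ℝ)..1, G (PT c i0 (e n) t τ)) 𝓕
      (nhds (∫ t in Set.Icc (0 : Fin (m + 1) → ℝ) 1, G (F_pt t))) := by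
  have hc0 : ∀ (G : C(UnitAddTorus (Fin (m + 1)), ℂ)) (e : Fin m → ℕ) (τ : ℝ),
      IntervalIntegrable (fun t => G (PT c i0 e t τ)) volume 0 1 := by
    intro G e τ
    apply Continuous.intervalIntegrable
    exact G.continuous.comp ((PT_cont c i0 e).comp (by fun_prop : Continuous fun t : ℝ => (t, τ)))
  have hcc : ∀ (G : C(UnitAddTorus (Fin (m + 1)), ℂ)) (e : Fin m → ℕ),
      Continuous (fun τ => ∫ t in (0:ℝ)..1, G (PT c i0 e t τ)) := by
    intro G e
    apply intervalIntegral.continuous_parametric_intervalIntegral_of_continuous' (μ := volume)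
    have h1 : Continuous (fun q : ℝ × ℝ => G (PT c i0 e q.2 q.1)) :=
      G.continuous.comp ((PT_cont c i0 e).comp (by fun_prop : Continuous fun q : ℝ × ℝ => (q.2, q.1)))
    exact h1
  have hi1 : ∀ (G : C(UnitAddTorus (Fin (m + 1)), ℂ)) (e : Fin m → ℕ),
      IntervalIntegrable (fun τ => ∫ t in (0:ℝ)..1, G (PT c i0 e t τ)) volume 0 1 :=
    fun G e => (hcc G e).intervalIntegrable _ _
  have hi2 : ∀ (G : C(UnitAddTorus (Fin (m + 1)), ℂ)),
      IntegrableOn (fun t => G (F_pt t)) (Set.Icc (0 : Fin (m + 1) → ℝ) 1) := by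
    intro G
    apply Continuous.integrableOn_Icc
    exact G.continuous.comp F_continuous_pt
  have hb1 : ∀ (G H : C(UnitAddTorus (Fin (m + 1)), ℂ)) (e : Fin m → ℕ),
      ‖(∫ τ in (0:ℝ)..1, ∫ t in (0:ℝ)..1, G (PT c i0 e t τ)) -
        ∫ τ in (0:ℝ)..1, ∫ t in (0:ℝ)..1, H (PT c i0 e t τ)‖ ≤ ‖G - H‖ := by
    intro G H e
    rw [← intervalIntegral.integral_sub (hi1 G e) (hi1 H e)]
    have hin : ∀ τ : ℝ, ‖(∫ t in (0:ℝ)..1, G (PT c i0 e t τ)) -
        ∫ t in (0:ℝ)..1, H (PT c i0 e t τ)‖ ≤ ‖G - H‖ := by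
      intro τ
      rw [← intervalIntegral.integral_sub (hc0 G e τ) (hc0 H e τ)]
      have := intervalIntegral.norm_integral_le_of_norm_le_const (a := (0:ℝ)) (b := 1) (C := ‖G - H‖)
        (f := fun t => G (PT c i0 e t τ) - H (PT c i0 e t τ))
        (fun x _ => by
          have := (G - H).norm_coe_le_norm (PT c i0 e x τ)
          simpa using this)
      simpa using this
    have := intervalIntegral.norm_integral_le_of_norm_le_const (a := (0:ℝ)) (b := 1) (C := ‖G - H‖)
      (f := fun τ => (∫ t in (0:ℝ)..1, G (PT c i0 e t τ)) -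
        ∫ t in (0:ℝ)..1, H (PT c i0 e t τ))
      (fun x _ => hin x)
    simpa using this
  have hb2 : ∀ (G H : C(UnitAddTorus (Fin (m + 1)), ℂ)),
      ‖(∫ t in Set.Icc (0 : Fin (m + 1) → ℝ) 1, G (F_pt t)) -
        ∫ t in Set.Icc (0 : Fin (m + 1) → ℝ) 1, H (F_pt t)‖ ≤ ‖G - H‖ := by
    intro G H
    rw [← integral_sub (hi2 G) (hi2 H)]
    have := norm_integral_le_of_norm_le_const
      (μ := (volume : Measure (Fin (m + 1) → ℝ)).restrict (Set.Icc (0 : Fin (m + 1) → ℝ) 1))
      (C := ‖G - H‖)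
      (f := fun t => G (F_pt t) - H (F_pt t))
      (Eventually.of_forall (fun x => by
        have := (G - H).norm_coe_le_norm (F_pt x)
        simpa using this))
    simpa using this
  let S : Submodule ℂ C(UnitAddTorus (Fin (m + 1)), ℂ) :=
    { carrier := {G | Tendsto (fun n => ∫ τ in (0:ℝ)..1, ∫ t in (0:ℝ)..1,
        G (PT c i0 (e n) t τ)) 𝓕 (nhds (∫ t in Set.Icc (0 : Fin (m + 1) → ℝ) 1, G (F_pt t)))}
      add_mem' := by
        intro G H hG hH
        simp only [Set.mem_ofPred_eq, ContinuousMap.add_apply] at hG hH ⊢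
        have h1 := hG.add hH
        rw [← integral_add (hi2 G) (hi2 H)] at h1
        refine h1.congr fun n => ?_
        rw [← intervalIntegral.integral_add (hi1 G _) (hi1 H _)]
        refine intervalIntegral.integral_congr fun τ _ => ?_
        rw [intervalIntegral.integral_add (hc0 G _ τ) (hc0 H _ τ)]
      zero_mem' := by
        simp only [Set.mem_ofPred_eq, ContinuousMap.zero_apply]
        simp only [intervalIntegral.integral_zero, integral_zero]
        exact tendsto_const_nhds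
      smul_mem' := by
        intro a G hG
        simp only [Set.mem_ofPred_eq, ContinuousMap.smul_apply] at hG ⊢
        have h1 := hG.const_smul a
        rw [← integral_smul] at h1
        refine h1.congr fun n => ?_
        rw [← intervalIntegral.integral_smul]
        refine intervalIntegral.integral_congr fun τ _ => ?_
        rw [intervalIntegral.integral_smul] }
  have hSclosed : IsClosed (S : Set C(UnitAddTorus (Fin (m + 1)), ℂ)) := by
    apply isClosed_of_closure_subset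
    intro G hG
    rw [Metric.mem_closure_iff] at hG
    change Tendsto _ _ _
    rw [Metric.tendsto_nhds]
    intro ε hε
    obtain ⟨H, hH, hGH⟩ := hG (ε / 3) (by positivity)
    have hH' : Tendsto (fun n => ∫ τ in (0:ℝ)..1, ∫ t in (0:ℝ)..1, H (PT c i0 (e n) t τ)) 𝓕
        (nhds (∫ t in Set.Icc (0 : Fin (m + 1) → ℝ) 1, H (F_pt t))) := hH
    rw [Metric.tendsto_nhds] at hH'
    filter_upwards [hH' (ε / 3) (by positivity)] with n hn
    rw [dist_eq_norm] at hGH
    have h1 := hb1 G H (e n)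
    have h2 := hb2 H G
    rw [norm_sub_rev H G] at h2
    rw [← dist_eq_norm] at h1 h2
    calc dist _ _ ≤ _ := dist_triangle4 _
          (∫ τ in (0:ℝ)..1, ∫ t in (0:ℝ)..1, H (PT c i0 (e n) t τ))
          (∫ t in Set.Icc (0 : Fin (m + 1) → ℝ) 1, H (F_pt t)) _
      _ < ε := by linarith
  have hspan : Submodule.span ℂ (Set.range (UnitAddTorus.mFourier (d := Fin (m + 1)))) ≤ S := by
    rw [Submodule.span_le]
    rintro _ ⟨s, rfl⟩
    change Tendsto _ _ _
    rw [F_int_cube]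
    simp_rw [int_mFourier_PT]
    by_cases h : s = 0
    · subst h
      simp
      exact tendsto_const_nhds
    · rw [if_neg h]
      by_cases h0 : s i0 = 0
      · have hs' : (fun l => s (i0.succAbove l)) ≠ 0 := by
          intro h1
          apply h
          funext j
          rcases Fin.eq_self_or_eq_succAbove i0 j with h2 | ⟨l, h2⟩
          · rw [h2, h0]; rfl
          · rw [h2]; exact congrFun h1 l
        have := he _ hs'
        refine Tendsto.congr' ?_ tendsto_const_nhds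
        filter_upwards [this] with n hn
        rw [if_neg hn, mul_zero, mul_zero]
      · rw [if_neg h0]
        simp
        exact tendsto_const_nhds
  have htop : (Submodule.span ℂ (Set.range
      (UnitAddTorus.mFourier (d := Fin (m + 1))))).topologicalClosure
      ≤ S := Submodule.topologicalClosure_minimal _ hspan hSclosed
  rw [UnitAddTorus.span_mFourier_closure_eq_top] at htop
  exact htop (Submodule.mem_top : G ∈ ⊤)

/-- real version -/
lemma equi2_real (𝓕 : Filter ℕ) (e : ℕ → Fin m → ℕ) (he : AsympIndep 𝓕 e)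
    (c : Fin (m + 1) → ℝ) (i0 : Fin (m + 1)) (g : UnitAddTorus (Fin (m + 1)) → ℝ)
    (hg : Continuous g) :
    Tendsto (fun n => ∫ τ in (0:ℝ)..1, ∫ t in (0:ℝ)..1, g (PT c i0 (e n) t τ)) 𝓕
      (nhds (∫ t in Set.Icc (0 : Fin (m + 1) → ℝ) 1, g (F_pt t))) := by
  have h := equi2 𝓕 e he c i0 ⟨fun x => ((g x : ℝ) : ℂ), Complex.continuous_ofReal.comp hg⟩
  simp only [ContinuousMap.coe_mk] at h
  simp_rw [intervalIntegral.integral_ofReal] at h
  rw [integral_complex_ofReal] at h
  have h2 := (Complex.continuous_re.tendsto _).comp h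
  simpa [Function.comp_def] using h2

/-- the regularised logarithm of the absolute value of an integer polynomial -/
lemma equi2_log (𝓕 : Filter ℕ) (e : ℕ → Fin m → ℕ) (he : AsympIndep 𝓕 e)
    (c : Fin (m + 1) → ℝ) (i0 : Fin (m + 1)) (P : MvPolynomial (Fin (m + 1)) ℤ) {δ : ℝ}
    (hδ : 0 < δ) :
    Tendsto (fun n => ∫ τ in (0:ℝ)..1, ∫ t in (0:ℝ)..1,
        Real.log (‖tv P (c + pt2 i0 (e n) t τ)‖ ^ 2 + δ)) 𝓕
      (nhds (∫ t in Set.Icc (0 : Fin (m + 1) → ℝ) 1, Real.log (‖tv P t‖ ^ 2 + δ))) := by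
  have hg : Continuous fun x : UnitAddTorus (Fin (m + 1)) => Real.log (‖F_G P x‖ ^ 2 + δ) := by
    apply Continuous.log
    · have h1 := (F_G P).continuous
      fun_prop
    · intro x
      positivity
  have h := equi2_real 𝓕 e he c i0 _ hg
  simp only [F_tv]
  exact h

end Pool.Agent.Helper99.MVL
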