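import Mathlib
import Pool.Agent.Helper99.MVL.Cy

/-!
# Nonvanishing of the resultants of twists of an irreducible polynomial
-/

set_option autoImplicit false

open Finset Polynomial

namespace Pool.Agent.Helper99.MVL

open Pool.Agent.Helper99.TD

/-! ### Coprimality up to a nonzero constant -/

/-- coprime over the field of fractions -/
def Cop {R : Type*} [CommRing R] (f g : R[X]) : Prop :=
  ∃ (U V : R[X]) (r : R), r ≠ 0 ∧ U * f + V * g = C r

lemma res_ne_of_cop {R : Type*} [CommRing R] [IsDomain R] {f g : R[X]} {a b : ℕ}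
    (hf : f.natDegree = a) (hg : g.natDegree = b) (h : Cop f g) : resultant f g a b ≠ 0 := by
  obtain ⟨U, V, r, hr, hUV⟩ := h
  set L := FractionRing R
  set φ := algebraMap R L with hφ
  have hinj : Function.Injective φ := IsFractionRing.injective R L
  have hφr : φ r ≠ 0 := by
    rw [Ne, map_eq_zero_iff φ hinj]
    exact hr
  have hcop : IsCoprime (f.map φ) (g.map φ) := by
    refine ⟨C (φ r)⁻¹ * U.map φ, C (φ r)⁻¹ * V.map φ, ?_⟩
    have h1 := congrArg (Polynomial.map φ) hUV
    rw [Polynomial.map_add, Polynomial.map_mul, Polynomial.map_mul, map_C] at h1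
    have h2 : C (φ r)⁻¹ * U.map φ * f.map φ + C (φ r)⁻¹ * V.map φ * g.map φ =
        C (φ r)⁻¹ * (U.map φ * f.map φ + V.map φ * g.map φ) := by ring
    rw [h2, h1, ← C_mul, inv_mul_cancel₀ hφr, C_1]
  have h1 := resultant_ne_zero (f.map φ) (g.map φ) hcop
  intro h0
  apply h1
  rw [natDegree_map_eq_of_injective hinj, natDegree_map_eq_of_injective hinj, hf, hg,
    resultant_map_map, h0, map_zero]

lemma cop_map {R S : Type*} [CommRing R] [CommRing S] {f g : R[X]} (h : Cop f g)
    (Ψ : R[X] →+* S[X]) (σ : R →+* S) (hΨ : ∀ r, Ψ (C r) = C (σ r)) (hσ : ∀ r, r ≠ 0 → σ r ≠ 0) :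
    Cop (Ψ f) (Ψ g) := by
  obtain ⟨U, V, r, hr, hUV⟩ := h
  refine ⟨Ψ U, Ψ V, σ r, hσ r hr, ?_⟩
  rw [← hΨ, ← hUV, map_add, map_mul, map_mul]

lemma cop_scale {R : Type*} [CommRing R] {f g f' g' : R[X]} {a b : R} (hf : f = C a * f')
    (hg : g = C b * g') (h : Cop f g) : Cop f' g' := by
  obtain ⟨U, V, r, hr, hUV⟩ := h
  refine ⟨U * C a, V * C b, r, hr, ?_⟩
  rw [← hUV, hf, hg]
  ring

/-! ### The polynomials -/

section poly

variable {k m : ℕ}

/-- the monomials in the variables different from `i0` -/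
noncomputable def mo (R : Type*) [CommRing R] (α : Fin k → Fin (m + 1) → ℕ) (i0 : Fin (m + 1)) :
    Fin k → MvPolynomial (Fin m) R :=
  fun j => ∏ l, MvPolynomial.X l ^ (α j (i0.succAbove l))

/-- the twisted polynomial in `m + 1` variables -/
noncomputable def PV {R : Type*} [CommRing R] (c : Fin k → ℤ) (α : Fin k → Fin (m + 1) → ℕ)
    (s : Fin k → R) : MvPolynomial (Fin (m + 1)) R :=
  ∑ j, MvPolynomial.C ((c j : R) * s j) * ∏ l, MvPolynomial.X l ^ (α j l)

/-- the isomorphism with the polynomial ring in the variable `i0` -/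
noncomputable def Th (R : Type*) [CommRing R] (i0 : Fin (m + 1)) :
    MvPolynomial (Fin (m + 1)) R ≃ₐ[R] Polynomial (MvPolynomial (Fin m) R) :=
  (MvPolynomial.renameEquiv R (finSuccEquiv' i0)).trans (MvPolynomial.optionEquivLeft R (Fin m))

lemma Th_X_same {R : Type*} [CommRing R] (i0 : Fin (m + 1)) :
    Th R i0 (MvPolynomial.X i0) = Polynomial.X := by
  unfold Th
  rw [AlgEquiv.trans_apply, MvPolynomial.renameEquiv_apply, MvPolynomial.rename_X,
    finSuccEquiv'_at, MvPolynomial.optionEquivLeft_X_none]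

lemma Th_X_other {R : Type*} [CommRing R] (i0 : Fin (m + 1)) (l : Fin m) :
    Th R i0 (MvPolynomial.X (i0.succAbove l)) = C (MvPolynomial.X l) := by
  unfold Th
  rw [AlgEquiv.trans_apply, MvPolynomial.renameEquiv_apply, MvPolynomial.rename_X,
    finSuccEquiv'_succAbove, MvPolynomial.optionEquivLeft_X_some]

lemma Th_PV {R : Type*} [CommRing R] (c : Fin k → ℤ) (α : Fin k → Fin (m + 1) → ℕ)
    (i0 : Fin (m + 1)) (s : Fin k → R) :
    Th R i0 (PV c α s) = TP c (fun j => α j i0) (fun j => MvPolynomial.C (s j) * mo R α i0 j) := by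
  unfold PV TP
  rw [map_sum]
  refine Finset.sum_congr rfl fun j _ => ?_
  have hC : ∀ r : R, Th R i0 (MvPolynomial.C r) = C (MvPolynomial.C r) := by
    intro r
    have := (Th R i0).commutes r
    rw [MvPolynomial.algebraMap_eq] at this
    rw [this]
    rfl
  rw [map_mul, hC, map_prod, Fin.prod_univ_succAbove _ i0]
  simp only [map_pow, Th_X_same, Th_X_other]
  unfold mo
  simp only [map_mul, map_prod, map_pow, map_intCast]
  ring

/-- the exponent vector as a finitely supported function -/
noncomputable def fs {n : ℕ} (v : Fin n → ℕ) : Fin n →₀ ℕ := Finsupp.equivFunOnFinite.symm v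

lemma fs_inj {n : ℕ} {v w : Fin n → ℕ} (h : fs v = fs w) : v = w :=
  Finsupp.equivFunOnFinite.symm.injective h

lemma C_mul_prod {n : ℕ} {R : Type*} [CommRing R] (a : R) (v : Fin n → ℕ) :
    MvPolynomial.C a * ∏ l, MvPolynomial.X l ^ (v l) =
      (MvPolynomial.monomial (fs v) a : MvPolynomial (Fin n) R) := by
  rw [MvPolynomial.monomial_eq]
  congr 1
  rw [Finsupp.prod_fintype _ _ (fun i => pow_zero _)]
  rfl

lemma PV_eq {R : Type*} [CommRing R] (c : Fin k → ℤ) (α : Fin k → Fin (m + 1) → ℕ)
    (s : Fin k → R) : PV c α s = ∑ j, MvPolynomial.monomial (fs (α j)) ((c j : R) * s j) := by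
  unfold PV
  exact Finset.sum_congr rfl fun j _ => C_mul_prod _ _

lemma PV_coeff {R : Type*} [CommRing R] (c : Fin k → ℤ) {α : Fin k → Fin (m + 1) → ℕ}
    (hα : Function.Injective α) (s : Fin k → R) (j : Fin k) :
    MvPolynomial.coeff (fs (α j)) (PV c α s) = (c j : R) * s j := by
  classical
  rw [PV_eq, MvPolynomial.coeff_sum, Finset.sum_eq_single j]
  · rw [MvPolynomial.coeff_monomial, if_pos rfl]
  · intro i _ hij
    rw [MvPolynomial.coeff_monomial, if_neg]
    intro h
    exact hij (hα (fs_inj h))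
  · intro h; exact absurd (Finset.mem_univ _) h

lemma PV_support {R : Type*} [CommRing R] (c : Fin k → ℤ) {α : Fin k → Fin (m + 1) → ℕ}
    (hα : Function.Injective α) (s : Fin k → R) (hs : ∀ j, (c j : R) * s j ≠ 0) :
    (PV c α s).support = Finset.univ.image (fun j => fs (α j)) := by
  classical
  ext n
  rw [MvPolynomial.mem_support_iff, Finset.mem_image]
  constructor
  · intro h
    by_contra hcon
    push Not at hcon
    apply h
    rw [PV_eq, MvPolynomial.coeff_sum]
    apply Finset.sum_eq_zero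
    intro j _
    rw [MvPolynomial.coeff_monomial, if_neg (hcon j (Finset.mem_univ j))]
  · rintro ⟨j, _, rfl⟩
    rw [PV_coeff c hα]
    exact hs j

/-- a twist divisible by the polynomial is a multiple -/
lemma const_of_dvd {K : Type*} [Field K] (c : Fin k → ℤ) {α : Fin k → Fin (m + 1) → ℕ}
    (hα : Function.Injective α) (hc : ∀ j, (c j : K) ≠ 0) (s : Fin k → K) (hs : ∀ j, s j ≠ 0)
    (h : PV c α (fun _ => (1:K)) ∣ PV c α s) (hk : 0 < k) : ∃ g : K, ∀ j, s j = g := by
  obtain ⟨G, hG⟩ := h
  have h1 : ∀ j, (c j : K) * (fun _ => (1:K)) j ≠ 0 := fun j => by simpa using hc j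
  have h2 : ∀ j, (c j : K) * s j ≠ 0 := fun j => mul_ne_zero (hc j) (hs j)
  have hs1 := PV_support c hα _ h1
  have hs2 := PV_support c hα _ h2
  have hP1 : PV c α (fun _ => (1:K)) ≠ 0 := by
    intro h0
    have := PV_coeff c hα (fun _ => (1:K)) ⟨0, hk⟩
    rw [h0, MvPolynomial.coeff_zero] at this
    exact h1 ⟨0, hk⟩ this.symm
  have hP2 : PV c α s ≠ 0 := by
    intro h0
    have := PV_coeff c hα s ⟨0, hk⟩
    rw [h0, MvPolynomial.coeff_zero] at this
    exact h2 ⟨0, hk⟩ this.symm
  have hG0 : G ≠ 0 := by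
    rintro rfl
    rw [mul_zero] at hG
    exact hP2 hG
  have htd : (PV c α s).totalDegree = (PV c α (fun _ => (1:K))).totalDegree := by
    unfold MvPolynomial.totalDegree
    rw [hs1, hs2]
  have h3 : G.totalDegree = 0 := by
    have h4 := congrArg MvPolynomial.totalDegree hG
    rw [MvPolynomial.totalDegree_mul_of_isDomain hP1 hG0, htd] at h4
    omega
  rw [MvPolynomial.totalDegree_eq_zero_iff_eq_C] at h3
  refine ⟨MvPolynomial.coeff 0 G, fun j => ?_⟩
  have h5 := congrArg (MvPolynomial.coeff (fs (α j))) hG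
  rw [h3, PV_coeff c hα, mul_comm (PV c α _), MvPolynomial.coeff_C_mul, PV_coeff c hα] at h5
  have h6 : (c j : K) * s j = (c j : K) * MvPolynomial.coeff 0 G := by
    rw [h5]
    simp [mul_comm]
  exact mul_left_cancel₀ (hc j) h6

/-- the degree in the distinguished variable -/
lemma TP_natDegree {R : Type*} [CommRing R] [IsDomain R] (c : Fin k → ℤ)
    {α : Fin k → Fin (m + 1) → ℕ} (hα : Function.Injective α) (i0 : Fin (m + 1)) (s : Fin k → R)
    (hs : ∀ j, (c j : R) * s j ≠ 0) {D : ℕ} (hD : ∀ j, α j i0 ≤ D) (jt : Fin k)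
    (hjt : α jt i0 = D) :
    (TP c (fun j => α j i0) (fun j => MvPolynomial.C (s j) * mo R α i0 j)).natDegree = D := by
  classical
  apply le_antisymm (TP_natDegree_le c _ _ hD)
  apply le_natDegree_of_ne_zero
  intro h0
  have h1 := congrArg (MvPolynomial.coeff (fs (fun l => α jt (i0.succAbove l)))) h0
  rw [MvPolynomial.coeff_zero] at h1
  unfold TP at h1
  rw [finsetSum_coeff, MvPolynomial.coeff_sum, Finset.sum_eq_single jt] at h1
  · rw [coeff_C_mul, coeff_X_pow, if_pos hjt.symm, mul_one] at h1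
    have h2 : ((c jt : ℤ) : MvPolynomial (Fin m) R) * (MvPolynomial.C (s jt) * mo R α i0 jt) =
        MvPolynomial.monomial (fs (fun l => α jt (i0.succAbove l))) ((c jt : R) * s jt) := by
      rw [← C_mul_prod, map_mul, map_intCast]
      unfold mo
      ring
    rw [h2, MvPolynomial.coeff_monomial, if_pos rfl] at h1
    exact hs jt h1
  · intro j _ hj
    rw [coeff_C_mul, coeff_X_pow]
    by_cases h3 : D = α j i0
    · rw [if_pos h3, mul_one]
      have h2 : ((c j : ℤ) : MvPolynomial (Fin m) R) * (MvPolynomial.C (s j) * mo R α i0 j) =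
          MvPolynomial.monomial (fs (fun l => α j (i0.succAbove l))) ((c j : R) * s j) := by
        rw [← C_mul_prod, map_mul, map_intCast]
        unfold mo
        ring
      rw [h2, MvPolynomial.coeff_monomial, if_neg]
      intro h4
      apply hj
      apply hα
      funext l
      rcases Fin.eq_self_or_eq_succAbove i0 l with h5 | ⟨l', h5⟩
      · rw [h5, ← h3, hjt]
      · rw [h5]
        exact congrFun (fs_inj h4) l'
    · rw [if_neg h3, mul_zero, MvPolynomial.coeff_zero]
  · intro h; exact absurd (Finset.mem_univ _) h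

/-- irreducible polynomials are coprime to their nontrivial twists -/
lemma cop_of_irred {K : Type*} [Field K] (c : Fin k → ℤ) {α : Fin k → Fin (m + 1) → ℕ}
    (hα : Function.Injective α) (hc : ∀ j, (c j : K) ≠ 0) (i0 : Fin (m + 1)) {D : ℕ}
    (hDpos : 0 < D) (hD : ∀ j, α j i0 ≤ D) (jt : Fin k) (hjt : α jt i0 = D)
    (hirr : Irreducible (PV c α (fun _ => (1:K)))) (s : Fin k → K) (hs : ∀ j, s j ≠ 0)
    (hns : ∃ j j', s j ≠ s j') :
    Cop (TP c (fun j => α j i0) (fun j => MvPolynomial.C 1 * mo K α i0 j))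
      (TP c (fun j => α j i0) (fun j => MvPolynomial.C (s j) * mo K α i0 j)) := by
  set F := TP c (fun j => α j i0) (fun j => MvPolynomial.C 1 * mo K α i0 j) with hF
  set F' := TP c (fun j => α j i0) (fun j => MvPolynomial.C (s j) * mo K α i0 j) with hF'
  have hFT : F = Th K i0 (PV c α (fun _ => (1:K))) := (Th_PV c α i0 _).symm
  have hFT' : F' = Th K i0 (PV c α s) := (Th_PV c α i0 _).symm
  have hirrF : Irreducible F := by
    rw [hFT]
    exact (MulEquiv.irreducible_iff (Th K i0)).mpr hirr
  have hFd : F.natDegree = D := TP_natDegree c hα i0 (fun _ => (1:K))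
    (fun j => by simpa using hc j) hD jt hjt
  have hFd' : F'.natDegree = D := TP_natDegree c hα i0 s
    (fun j => mul_ne_zero (hc j) (hs j)) hD jt hjt
  have hprim : F.IsPrimitive := hirrF.isPrimitive (by rw [hFd]; omega)
  set L := FractionRing (MvPolynomial (Fin m) K)
  have hirrL : Irreducible (F.map (algebraMap (MvPolynomial (Fin m) K) L)) :=
    (hprim.irreducible_iff_irreducible_map_fraction_map).mp hirrF
  have hinj : Function.Injective (algebraMap (MvPolynomial (Fin m) K) L) :=
    IsFractionRing.injective _ L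
  have hres : resultant F F' D D ≠ 0 := by
    rcases hirrL.isCoprime_or_dvd (F'.map (algebraMap (MvPolynomial (Fin m) K) L)) with h | h
    · have h1 := resultant_ne_zero _ _ h
      intro h0
      apply h1
      rw [natDegree_map_eq_of_injective hinj, natDegree_map_eq_of_injective hinj, hFd, hFd',
        resultant_map_map, h0, map_zero]
    · exfalso
      have h1 := hprim.dvd_of_fraction_map_dvd_fraction_map h
      have h2 : PV c α (fun _ => (1:K)) ∣ PV c α s := by
        rw [hFT, hFT'] at h1
        exact (map_dvd_iff (Th K i0)).mp h1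
      obtain ⟨g, hg⟩ := const_of_dvd c hα hc s hs h2 (Fin.pos jt)
      obtain ⟨j, j', hjj'⟩ := hns
      apply hjj'
      rw [hg, hg]
  obtain ⟨U, V, _, _, hUV⟩ := exists_mul_add_mul_eq_C_resultant F F' hFd.le hFd'.le
    (Or.inl hDpos.ne')
  exact ⟨U, V, _, hres, by rw [← hUV]; ring⟩

/-- irreducible polynomials are coprime to their derivatives -/
lemma cop_deriv_of_irred {K : Type*} [Field K] [CharZero K] (c : Fin k → ℤ)
    {α : Fin k → Fin (m + 1) → ℕ}
    (hα : Function.Injective α) (hc : ∀ j, (c j : K) ≠ 0) (i0 : Fin (m + 1)) {D : ℕ}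
    (hDpos : 0 < D) (hD : ∀ j, α j i0 ≤ D) (jt : Fin k) (hjt : α jt i0 = D)
    (hirr : Irreducible (PV c α (fun _ => (1:K)))) :
    Cop (TP c (fun j => α j i0) (fun j => MvPolynomial.C 1 * mo K α i0 j))
      (derivative (TP c (fun j => α j i0) (fun j => MvPolynomial.C 1 * mo K α i0 j))) := by
  set F := TP c (fun j => α j i0) (fun j => MvPolynomial.C 1 * mo K α i0 j) with hF
  have hFT : F = Th K i0 (PV c α (fun _ => (1:K))) := (Th_PV c α i0 _).symm
  have hirrF : Irreducible F := by
    rw [hFT]
    exact (MulEquiv.irreducible_iff (Th K i0)).mpr hirr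
  have hFd : F.natDegree = D := TP_natDegree c hα i0 (fun _ => (1:K))
    (fun j => by simpa using hc j) hD jt hjt
  have hprim : F.IsPrimitive := hirrF.isPrimitive (by rw [hFd]; omega)
  set L := FractionRing (MvPolynomial (Fin m) K)
  have hirrL : Irreducible (F.map (algebraMap (MvPolynomial (Fin m) K) L)) :=
    (hprim.irreducible_iff_irreducible_map_fraction_map).mp hirrF
  have hinj : Function.Injective (algebraMap (MvPolynomial (Fin m) K) L) :=
    IsFractionRing.injective _ L
  have : CharZero L := charZero_of_injective_algebraMap hinj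
  have hsep : IsCoprime (F.map (algebraMap (MvPolynomial (Fin m) K) L))
      (derivative (F.map (algebraMap (MvPolynomial (Fin m) K) L))) := hirrL.separable
  have hFd' : (derivative F).natDegree = D - 1 := by
    have h1 := degree_derivative_eq F (by rw [hFd]; exact hDpos)
    rw [natDegree_eq_of_degree_eq_some h1, hFd]
  have hres : resultant F (derivative F) D (D - 1) ≠ 0 := by
    have h1 := resultant_ne_zero _ _ hsep
    intro h0
    apply h1
    rw [derivative_map, natDegree_map_eq_of_injective hinj, natDegree_map_eq_of_injective hinj,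
      hFd, hFd', resultant_map_map, h0, map_zero]
  obtain ⟨U, V, _, _, hUV⟩ := exists_mul_add_mul_eq_C_resultant F (derivative F) hFd.le hFd'.le
    (Or.inl hDpos.ne')
  exact ⟨U, V, _, hres, by rw [← hUV]; ring⟩

end poly

end Pool.Agent.Helper99.MVL
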