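import Mathlib
import Pool.Agent.Helper99.MVL.Nz

/-!
# Nonvanishing of the norms of the resultants
-/

set_option autoImplicit false

open Finset Polynomial

namespace Pool.Agent.Helper99.MVL

open Pool.Agent.Helper99.TD

variable {k m : ℕ}

/-- real combinations of the exponent vectors and the constant vector -/
def Rep (α : Fin k → Fin (m + 1) → ℕ) (w : Fin k → ℕ) : Prop :=
  ∃ (u : Fin (m + 1) → ℝ) (u0 : ℝ), ∀ j, (w j : ℝ) = ∑ l, u l * α j l + u0

lemma twist_data {α : Fin k → Fin (m + 1) → ℕ} {w : Fin k → ℕ} (hw : Rep α w) {μ : ℂ}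
    (hμ : ‖μ‖ = 1) :
    ∃ (θ : Fin (m + 1) → ℂ) (κ : ℂ), (∀ l, θ l ≠ 0) ∧ κ ≠ 0 ∧
      ∀ j, μ ^ (w j) = κ * ∏ l, θ l ^ (α j l) := by
  obtain ⟨u, u0, hu⟩ := hw
  have hμe : μ = Complex.exp (Complex.arg μ * Complex.I) := by
    have := Complex.norm_mul_exp_arg_mul_I μ
    rw [hμ] at this
    simpa using this.symm
  refine ⟨fun l => Complex.exp ((Complex.arg μ * u l : ℝ) * Complex.I),
    Complex.exp ((Complex.arg μ * u0 : ℝ) * Complex.I), fun l => Complex.exp_ne_zero _,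
    Complex.exp_ne_zero _, fun j => ?_⟩
  conv_lhs => rw [hμe]
  rw [← Complex.exp_nat_mul]
  have h1 : ∀ l, Complex.exp ((Complex.arg μ * u l : ℝ) * Complex.I) ^ (α j l) =
      Complex.exp ((α j l : ℕ) * ((Complex.arg μ * u l : ℝ) * Complex.I)) := by
    intro l
    rw [← Complex.exp_nat_mul]
  rw [Finset.prod_congr rfl fun l _ => h1 l, ← Complex.exp_sum, ← Complex.exp_add]
  congr 1
  have h2 : ((w j : ℕ) : ℂ) = ((∑ l, u l * α j l + u0 : ℝ) : ℂ) := by
    rw [← hu j]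
    push_cast
    rfl
  rw [h2]
  push_cast
  rw [add_mul, Finset.sum_mul, add_comm]
  congr 1
  · ring
  · refine Finset.sum_congr rfl fun l _ => ?_
    ring

section transport

variable {K : Type*} [Field K] (ψ : K →+* ℂ) (θ : Fin (m + 1) → ℂ) (i0 : Fin (m + 1))

/-- the twist on the coefficients -/
noncomputable def sg : MvPolynomial (Fin m) K →+* MvPolynomial (Fin m) ℂ :=
  MvPolynomial.eval₂Hom ((MvPolynomial.C : ℂ →+* MvPolynomial (Fin m) ℂ).comp ψ)
    (fun l => MvPolynomial.C (θ (i0.succAbove l)) * MvPolynomial.X l)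

lemma sg_ne (hθ : ∀ l, θ l ≠ 0) (r : MvPolynomial (Fin m) K) (hr : r ≠ 0) :
    sg ψ θ i0 r ≠ 0 := by
  intro h0
  let τ : MvPolynomial (Fin m) ℂ →+* MvPolynomial (Fin m) ℂ :=
    MvPolynomial.eval₂Hom (MvPolynomial.C : ℂ →+* MvPolynomial (Fin m) ℂ)
      (fun l => MvPolynomial.C ((θ (i0.succAbove l))⁻¹) * MvPolynomial.X l)
  have h1 : τ.comp (sg ψ θ i0) = MvPolynomial.map ψ := by
    apply MvPolynomial.ringHom_ext
    · intro r
      simp [τ, sg]
    · intro l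
      simp only [τ, sg, RingHom.comp_apply, MvPolynomial.coe_eval₂Hom, MvPolynomial.eval₂_X,
        MvPolynomial.eval₂_mul, MvPolynomial.eval₂_C, MvPolynomial.map_X]
      rw [← mul_assoc, ← MvPolynomial.C_mul, mul_inv_cancel₀ (hθ _), MvPolynomial.C_1, one_mul]
  have h2 : MvPolynomial.map ψ r = 0 := by
    rw [← h1, RingHom.comp_apply, h0, map_zero]
  exact hr (MvPolynomial.map_injective ψ ψ.injective (by rw [h2, map_zero]))

/-- the twist on the polynomials -/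
noncomputable def Ps : (MvPolynomial (Fin m) K)[X] →+* (MvPolynomial (Fin m) ℂ)[X] :=
  eval₂RingHom ((C : MvPolynomial (Fin m) ℂ →+* (MvPolynomial (Fin m) ℂ)[X]).comp (sg ψ θ i0))
    (C (MvPolynomial.C (θ i0)) * X)

lemma Ps_C (r : MvPolynomial (Fin m) K) : Ps ψ θ i0 (C r) = C (sg ψ θ i0 r) := by
  simp [Ps]

lemma Ps_deriv (G : (MvPolynomial (Fin m) K)[X]) :
    derivative (Ps ψ θ i0 G) = C (MvPolynomial.C (θ i0)) * Ps ψ θ i0 (derivative G) := by
  have h1 : ∀ G : (MvPolynomial (Fin m) K)[X], Ps ψ θ i0 G =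
      (G.map (sg ψ θ i0)).comp (C (MvPolynomial.C (θ i0)) * X) := by
    intro G
    unfold Ps Polynomial.comp
    rw [coe_eval₂RingHom, eval₂_map]
  rw [h1, h1, derivative_comp, derivative_map, derivative_C_mul, derivative_X, mul_one]

lemma Ps_TP (c : Fin k → ℤ) (α : Fin k → Fin (m + 1) → ℕ) (s : Fin k → K) :
    Ps ψ θ i0 (TP c (fun j => α j i0) (fun j => MvPolynomial.C (s j) * mo K α i0 j)) =
      TP c (fun j => α j i0) (fun j => MvPolynomial.C (ψ (s j) * ∏ l, θ l ^ (α j l)) *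
        mo ℂ α i0 j) := by
  unfold TP
  rw [map_sum]
  refine Finset.sum_congr rfl fun j _ => ?_
  rw [map_mul, Ps_C, map_pow]
  have hX : Ps ψ θ i0 X = C (MvPolynomial.C (θ i0)) * X := by simp [Ps]
  rw [hX, map_mul, map_intCast]
  dsimp only
  rw [map_mul (sg ψ θ i0)]
  have hCs : sg ψ θ i0 (MvPolynomial.C (s j)) = MvPolynomial.C (ψ (s j)) := by simp [sg]
  have hmo : sg ψ θ i0 (mo K α i0 j) =
      MvPolynomial.C (∏ l, θ (i0.succAbove l) ^ (α j (i0.succAbove l))) * mo ℂ α i0 j := by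
    unfold mo
    rw [map_prod, map_prod, ← Finset.prod_mul_distrib]
    refine Finset.prod_congr rfl fun l _ => ?_
    have hXl : sg ψ θ i0 (MvPolynomial.X l) = MvPolynomial.C (θ (i0.succAbove l)) *
        MvPolynomial.X l := by simp [sg]
    rw [map_pow, hXl, mul_pow, map_pow]
  rw [hCs, hmo, Fin.prod_univ_succAbove _ i0, mul_pow]
  simp only [map_mul, map_pow, map_intCast]
  ring

end transport

/-- the twists over the complex numbers are coprime -/
lemma twists_ne {p : ℕ} (hp : p.Prime) {K : Type*} [Field K] [CharZero K] (ψ : K →+* ℂ) {ζ : K}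
    (hζ : IsPrimitiveRoot ζ p) (c : Fin k → ℤ) {α : Fin k → Fin (m + 1) → ℕ}
    (hα : Function.Injective α) (hc : ∀ j, c j ≠ 0) (i0 : Fin (m + 1)) {D : ℕ}
    (hDpos : 0 < D) (hD : ∀ j, α j i0 ≤ D) (jt : Fin k) (hjt : α jt i0 = D)
    (hirr : Irreducible (PV c α (fun _ => (1:K)))) {w w' : Fin k → ℕ} (hw : Rep α w)
    (hww : ∃ j j', ¬ ((w' j : ℤ) - w j ≡ (w' j' : ℤ) - w j' [ZMOD p])) {μ : ℂ}
    (hμ : μ ∈ primitiveRoots p ℂ) :
    RS c (fun j => α j i0) D (yt (MvPolynomial.C μ) w (mo ℂ α i0))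
      (yt (MvPolynomial.C μ) w' (mo ℂ α i0)) ≠ 0 ∧
    RD c (fun j => α j i0) D (yt (MvPolynomial.C μ) w (mo ℂ α i0)) ≠ 0 := by
  have : NeZero p := ⟨hp.ne_zero⟩
  have hμp : IsPrimitiveRoot μ p := (mem_primitiveRoots hp.pos).mp hμ
  have hμn : ‖μ‖ = 1 := hμp.norm'_eq_one hp.ne_zero
  have hμ0 : μ ≠ 0 := by
    rw [← norm_pos_iff, hμn]; exact one_pos
  obtain ⟨θ, κ, hθ, hκ, hθμ⟩ := twist_data hw hμn
  -- the root of unity in `K`
  have hψζ : IsPrimitiveRoot (ψ ζ) p := hζ.map_of_injective ψ.injective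
  obtain ⟨a, _, ha⟩ := hψζ.eq_pow_of_pow_eq_one hμp.pow_eq_one
  set z : K := ζ ^ a with hz
  have hψz : ψ z = μ := by rw [hz, map_pow, ha]
  have hz0 : z ≠ 0 := by
    intro h
    rw [h, map_zero] at hψz
    exact hμ0 hψz.symm
  have hcK : ∀ j, (c j : K) ≠ 0 := fun j => Int.cast_ne_zero.mpr (hc j)
  have hcC : ∀ j, (c j : ℂ) ≠ 0 := fun j => Int.cast_ne_zero.mpr (hc j)
  set s : Fin k → K := fun j => z ^ (w' j) * (z ^ (w j))⁻¹ with hs
  have hs0 : ∀ j, s j ≠ 0 := fun j =>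
    mul_ne_zero (pow_ne_zero _ hz0) (inv_ne_zero (pow_ne_zero _ hz0))
  have hψs : ∀ j, ψ (s j) * ∏ l, θ l ^ (α j l) = κ⁻¹ * μ ^ (w' j) := by
    intro j
    have h1 := hθμ j
    rw [hs]
    simp only [map_mul, map_pow, map_inv₀, hψz]
    rw [h1]
    have h2 : ∏ l, θ l ^ (α j l) ≠ 0 :=
      Finset.prod_ne_zero_iff.mpr fun l _ => pow_ne_zero _ (hθ l)
    field_simp
  have hψ1 : ∀ j, ψ 1 * ∏ l, θ l ^ (α j l) = κ⁻¹ * μ ^ (w j) := by
    intro j
    rw [hθμ j, map_one, one_mul]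
    field_simp
  set T : (Fin k → ℕ) → (MvPolynomial (Fin m) ℂ)[X] := fun w =>
    TP c (fun j => α j i0) (yt (MvPolynomial.C μ) w (mo ℂ α i0)) with hT
  have hTeq : ∀ w : Fin k → ℕ, TP c (fun j => α j i0)
      (fun j => MvPolynomial.C (κ⁻¹ * μ ^ (w j)) * mo ℂ α i0 j) = C (MvPolynomial.C κ⁻¹) * T w := by
    intro w
    rw [hT]
    dsimp only
    unfold TP yt
    rw [Finset.mul_sum]
    refine Finset.sum_congr rfl fun j _ => ?_
    simp only [map_mul, map_pow, map_intCast]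
    ring
  have hTdeg : ∀ w : Fin k → ℕ, (T w).natDegree = D := by
    intro w
    have h1 := TP_natDegree c hα i0 (fun j => μ ^ (w j))
      (fun j => mul_ne_zero (hcC j) (pow_ne_zero _ hμ0)) hD jt hjt
    have h2 : T w = TP c (fun j => α j i0)
        (fun j => MvPolynomial.C (μ ^ (w j)) * mo ℂ α i0 j) := by
      rw [hT]
      dsimp only
      congr 1
      funext j
      unfold yt
      rw [map_pow]
    rw [h2]
    exact h1
  have hPF : Ps ψ θ i0 (TP c (fun j => α j i0) (fun j => MvPolynomial.C 1 * mo K α i0 j)) =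
      C (MvPolynomial.C κ⁻¹) * T w := by
    rw [← hTeq]
    have h1 := Ps_TP ψ θ i0 c α (fun _ => (1:K))
    simp only [hψ1] at h1
    exact h1
  have hPF' : Ps ψ θ i0 (TP c (fun j => α j i0) (fun j => MvPolynomial.C (s j) * mo K α i0 j)) =
      C (MvPolynomial.C κ⁻¹) * T w' := by
    rw [← hTeq]
    have h1 := Ps_TP ψ θ i0 c α s
    simp only [hψs] at h1
    exact h1
  constructor
  · have hns : ∃ j j', s j ≠ s j' := by
      obtain ⟨j, j', hjj'⟩ := hww
      refine ⟨j, j', fun h => hjj' ?_⟩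
      have hzp : IsPrimitiveRoot z p := by
        apply IsPrimitiveRoot.of_map_of_injective (f := ψ) _ ψ.injective
        rw [hψz]
        exact hμp
      have h1 : z ^ ((w' j : ℤ) - w j) = z ^ ((w' j' : ℤ) - w j') := by
        rw [zpow_sub₀ hz0, zpow_sub₀ hz0, zpow_natCast, zpow_natCast, zpow_natCast, zpow_natCast,
          div_eq_mul_inv, div_eq_mul_inv]
        exact h
      have h2 : z ^ (((w' j : ℤ) - w j) - ((w' j' : ℤ) - w j')) = 1 := by
        rw [zpow_sub₀ hz0, h1, div_self]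
        exact zpow_ne_zero _ hz0
      have h3 := (hzp.zpow_eq_one_iff_dvd _).mp h2
      exact (Int.modEq_iff_dvd.mpr h3).symm
    have h1 := cop_of_irred c hα hcK i0 hDpos hD jt hjt hirr s hs0 hns
    have h2 := cop_map h1 (Ps ψ θ i0) (sg ψ θ i0) (Ps_C ψ θ i0) (sg_ne ψ θ i0 hθ)
    have h3 := cop_scale hPF hPF' h2
    exact res_ne_of_cop (hTdeg w) (hTdeg w') h3
  · have h1 := cop_deriv_of_irred c hα hcK i0 hDpos hD jt hjt hirr
    have h2 := cop_map h1 (Ps ψ θ i0) (sg ψ θ i0) (Ps_C ψ θ i0) (sg_ne ψ θ i0 hθ)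
    have h4 : Ps ψ θ i0 (derivative (TP c (fun j => α j i0)
        (fun j => MvPolynomial.C 1 * mo K α i0 j))) =
        C (MvPolynomial.C ((θ i0)⁻¹ * κ⁻¹)) * derivative (T w) := by
      have h5 := Ps_deriv ψ θ i0 (TP c (fun j => α j i0)
        (fun j => MvPolynomial.C 1 * mo K α i0 j))
      rw [hPF, derivative_C_mul] at h5
      have h6 : C (MvPolynomial.C ((θ i0)⁻¹)) * (C (MvPolynomial.C (θ i0)) *
          Ps ψ θ i0 (derivative (TP c (fun j => α j i0)
          (fun j => MvPolynomial.C 1 * mo K α i0 j)))) =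
          Ps ψ θ i0 (derivative (TP c (fun j => α j i0)
          (fun j => MvPolynomial.C 1 * mo K α i0 j))) := by
        rw [← mul_assoc, ← C_mul, ← MvPolynomial.C_mul, inv_mul_cancel₀ (hθ i0),
          MvPolynomial.C_1, C_1, one_mul]
      rw [← h6, ← h5, ← mul_assoc, ← C_mul, ← MvPolynomial.C_mul]
    have h3 := cop_scale hPF h4 h2
    apply res_ne_of_cop (hTdeg w) _ h3
    have h7 := degree_derivative (p := T w) (by rw [hTdeg]; exact hDpos.ne')
    rw [natDegree_eq_of_degree_eq_some h7, hTdeg]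

/-- the norms are not zero -/
theorem norms_ne {p : ℕ} (hp : p.Prime) {K : Type*} [Field K] [CharZero K] (ψ : K →+* ℂ) {ζ : K}
    (hζ : IsPrimitiveRoot ζ p) (c : Fin k → ℤ) {α : Fin k → Fin (m + 1) → ℕ}
    (hα : Function.Injective α) (hc : ∀ j, c j ≠ 0) (i0 : Fin (m + 1)) {D : ℕ}
    (hDpos : 0 < D) (hD : ∀ j, α j i0 ≤ D) (jt : Fin k) (hjt : α jt i0 = D)
    (hirr : Irreducible (PV c α (fun _ => (1:K)))) {w w' : Fin k → ℕ} (hw : Rep α w)
    (hww : ∃ j j', ¬ ((w' j : ℤ) - w j ≡ (w' j' : ℤ) - w j' [ZMOD p])) :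
    NZ p (WW c (fun j => α j i0) D w w' (mo ℤ α i0)) ≠ 0 ∧
    NZ p (RD c (fun j => α j i0) D (yz w (mo ℤ α i0))) ≠ 0 := by
  have : NeZero p := ⟨hp.ne_zero⟩
  set χ : MvPolynomial (Fin m) ℤ →+* MvPolynomial (Fin m) ℂ :=
    MvPolynomial.map (Int.castRingHom ℂ) with hχ
  have hζ0 := Complex.isPrimitiveRoot_exp p hp.ne_zero
  set ζC : MvPolynomial (Fin m) ℂ := MvPolynomial.C (Complex.exp (2 * Real.pi * Complex.I / p))
    with hζC
  have hζC' : IsPrimitiveRoot ζC p :=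
    hζ0.map_of_injective (f := (MvPolynomial.C : ℂ →+* MvPolynomial (Fin m) ℂ))
      (MvPolynomial.C_injective _ _)
  have hroot : ∀ ν ∈ primitiveRoots p (MvPolynomial (Fin m) ℂ), ∃ μ ∈ primitiveRoots p ℂ,
      ν = MvPolynomial.C μ := by
    intro ν hν
    have h1 : IsPrimitiveRoot ν p := (mem_primitiveRoots hp.pos).mp hν
    obtain ⟨a, _, ha⟩ := hζC'.eq_pow_of_pow_eq_one h1.pow_eq_one
    have h2 : ν = MvPolynomial.C (Complex.exp (2 * Real.pi * Complex.I / p) ^ a) := by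
      rw [← ha, hζC, map_pow]
    refine ⟨_, ?_, h2⟩
    rw [mem_primitiveRoots hp.pos]
    rw [h2] at h1
    exact IsPrimitiveRoot.of_map_of_injective
      (f := (MvPolynomial.C : ℂ →+* MvPolynomial (Fin m) ℂ)) h1 (MvPolynomial.C_injective _ _)
  have hmo : (fun j => χ (mo ℤ α i0 j)) = mo ℂ α i0 := by
    funext j
    unfold mo
    rw [map_prod]
    refine Finset.prod_congr rfl fun l _ => ?_
    rw [map_pow, hχ, MvPolynomial.map_X]
  constructor
  · intro h0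
    have h1 := NZ_map hp (WW c (fun j => α j i0) D w w' (mo ℤ α i0)) χ hζC'
    rw [h0, map_zero] at h1
    obtain ⟨ν, hν, hν0⟩ := Finset.prod_eq_zero_iff.mp h1.symm
    obtain ⟨μ, hμ, rfl⟩ := hroot ν hν
    have h2 := congrArg (eval₂RingHom χ (MvPolynomial.C μ)) (WW_eq c _ hD w w' (mo ℤ α i0))
    rw [RS_map, yz_eval, yz_eval, hmo, map_mul] at h2
    apply (twists_ne hp ψ hζ c hα hc i0 hDpos hD jt hjt hirr hw hww hμ).1
    rw [h2]
    rw [eval_map] at hν0
    rw [coe_eval₂RingHom, hν0, mul_zero]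
  · intro h0
    have h1 := NZ_map hp (RD c (fun j => α j i0) D (yz w (mo ℤ α i0))) χ hζC'
    rw [h0, map_zero] at h1
    obtain ⟨ν, hν, hν0⟩ := Finset.prod_eq_zero_iff.mp h1.symm
    obtain ⟨μ, hμ, rfl⟩ := hroot ν hν
    apply (twists_ne hp ψ hζ c hα hc i0 hDpos hD jt hjt hirr hw hww hμ).2
    have h2 := RD_map c (fun j => α j i0) D (yz w (mo ℤ α i0))
      (eval₂RingHom χ (MvPolynomial.C μ))
    rw [yz_eval, hmo] at h2
    rw [← h2]
    rw [eval_map] at hν0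
    exact hν0

end Pool.Agent.Helper99.MVL
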