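import Mathlib
import Pool.Agent.Helper99.MVL.Nv

/-!
# Many twists
-/

set_option autoImplicit false

open Finset Module

namespace Pool.Agent.Helper99.MVL

variable {k m : ℕ}

/-- the exponents do not lie in a proper affine subspace -/
def Full (α : Fin k → Fin (m + 1) → ℕ) : Prop :=
  ∀ u : Fin (m + 1) → ℤ, (∀ j j', ∑ l, u l * (α j l : ℤ) = ∑ l, u l * (α j' l : ℤ)) → u = 0

/-- the lattice of integer vectors -/
def LM (α : Fin k → Fin (m + 1) → ℕ) : Submodule ℤ (Fin k → ℤ) where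
  carrier := {v | ∃ (u : Fin (m + 1) → ℝ) (u0 : ℝ), ∀ j, (v j : ℝ) = ∑ l, u l * α j l + u0}
  add_mem' := by
    rintro a b ⟨u, u0, hu⟩ ⟨v, v0, hv⟩
    refine ⟨u + v, u0 + v0, fun j => ?_⟩
    simp only [Pi.add_apply, Int.cast_add, hu, hv, add_mul, Finset.sum_add_distrib]
    ring
  zero_mem' := ⟨0, 0, fun j => by simp⟩
  smul_mem' := by
    rintro t b ⟨u, u0, hu⟩
    refine ⟨fun l => t * u l, t * u0, fun j => ?_⟩
    simp only [Pi.smul_apply, smul_eq_mul, Int.cast_mul, hu, mul_add, Finset.mul_sum, mul_assoc]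

lemma mem_LM {α : Fin k → Fin (m + 1) → ℕ} {v : Fin k → ℤ} : v ∈ LM α ↔
    ∃ (u : Fin (m + 1) → ℝ) (u0 : ℝ), ∀ j, (v j : ℝ) = ∑ l, u l * α j l + u0 := Iff.rfl

lemma LM_div {α : Fin k → Fin (m + 1) → ℕ} {p : ℕ} (hp : 0 < p) {v x : Fin k → ℤ}
    (hv : v ∈ LM α) (h : ∀ j, v j = p * x j) : x ∈ LM α := by
  rw [mem_LM] at hv ⊢
  obtain ⟨u, u0, hu⟩ := hv
  refine ⟨fun l => u l / p, u0 / p, fun j => ?_⟩
  have hp' : (p:ℝ) ≠ 0 := by exact_mod_cast hp.ne'
  have h1 := hu j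
  rw [h j] at h1
  push_cast at h1
  have h2 : (x j : ℝ) = (∑ l, u l * α j l + u0) / p := by
    rw [← h1]
    field_simp
  rw [h2, add_div, Finset.sum_div]
  congr 1
  refine Finset.sum_congr rfl fun l _ => ?_
  ring

lemma one_mem_LM (α : Fin k → Fin (m + 1) → ℕ) : (fun _ => (1:ℤ)) ∈ LM α :=
  ⟨0, 1, fun j => by simp⟩

lemma col_mem_LM (α : Fin k → Fin (m + 1) → ℕ) (l : Fin (m + 1)) :
    (fun j => (α j l : ℤ)) ∈ LM α := by
  refine ⟨fun i => if i = l then 1 else 0, 0, fun j => ?_⟩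
  simp

lemma finrank_LM (hk : 0 < k) {α : Fin k → Fin (m + 1) → ℕ} (hα : Full α) :
    m + 2 ≤ finrank ℤ (LM α) := by
  let g : Option (Fin (m + 1)) → LM α := fun o =>
    match o with
    | none => ⟨fun _ => (1:ℤ), one_mem_LM α⟩
    | some l => ⟨fun j => (α j l : ℤ), col_mem_LM α l⟩
  have hg : LinearIndependent ℤ g := by
    rw [Fintype.linearIndependent_iff]
    intro a ha
    have h1 : ∀ j, a none + ∑ l, a (some l) * (α j l : ℤ) = 0 := by
      intro j
      have h2 := congrArg (fun x : LM α => (x : Fin k → ℤ) j) ha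
      rw [Fintype.sum_option] at h2
      simp only [Submodule.coe_add, Submodule.coe_sum, Submodule.coe_smul, Pi.add_apply,
        Finset.sum_apply, Pi.smul_apply, smul_eq_mul, ZeroMemClass.coe_zero, Pi.zero_apply] at h2
      have h3 : a none * 1 + ∑ l, a (some l) * (α j l : ℤ) = 0 := h2
      rwa [mul_one] at h3
    have h2 : (fun l => a (some l)) = 0 := by
      apply hα
      intro j j'
      have e1 := h1 j
      have e2 := h1 j'
      linarith
    have h3 : a none = 0 := by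
      have e1 := h1 ⟨0, hk⟩
      have e2 : ∑ l, a (some l) * (α ⟨0, hk⟩ l : ℤ) = 0 := by
        apply Finset.sum_eq_zero
        intro l _
        have := congrFun h2 l
        simp only [Pi.zero_apply] at this
        rw [this, zero_mul]
      rwa [e2, add_zero] at e1
    intro i
    rcases i with _ | l
    · exact h3
    · exact congrFun h2 l
  have h3 := hg.fintype_card_le_finrank
  rwa [Fintype.card_option, Fintype.card_fin] at h3

lemma to_nat (α : Fin k → Fin (m + 1) → ℕ) {p : ℕ} (hp : 0 < p) (v : Fin k → ℤ)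
    (hv : v ∈ LM α) : ∃ w : Fin k → ℕ, Rep α w ∧ ∀ j, (w j : ℤ) ≡ v j [ZMOD p] := by
  have hnn : ∀ j, 0 ≤ v j + p * ∑ i, |v i| := by
    intro j
    have h2 : |v j| ≤ ∑ i, |v i| :=
      Finset.single_le_sum (f := fun i => |v i|) (fun i _ => abs_nonneg _) (Finset.mem_univ j)
    have h3 := neg_abs_le (v j)
    have h4 := abs_nonneg (v j)
    have h5 : (1:ℤ) ≤ p := by exact_mod_cast hp
    nlinarith
  have he : ∀ j, (((v j + p * ∑ i, |v i|).toNat : ℕ) : ℤ) = v j + p * ∑ i, |v i| :=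
    fun j => Int.toNat_of_nonneg (hnn j)
  refine ⟨fun j => (v j + p * ∑ i, |v i|).toNat, ?_, fun j => ?_⟩
  · obtain ⟨u, u0, hu⟩ := hv
    refine ⟨u, u0 + p * ∑ i, |v i|, fun j => ?_⟩
    have h1 : (((v j + p * ∑ i, |v i|).toNat : ℕ) : ℝ) = ((v j + p * ∑ i, |v i| : ℤ) : ℝ) := by
      rw [← he j]
      push_cast
      rfl
    rw [h1]
    push_cast
    rw [hu j]
    ring
  · rw [he j]
    exact Int.modEq_iff_dvd.mpr ⟨-∑ i, |v i|, by ring⟩

/-- many twists -/
theorem exists_twists (hk : 0 < k) {α : Fin k → Fin (m + 1) → ℕ} (hα : Full α) {p : ℕ}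
    (hp : p.Prime) :
    ∃ w : (Fin (m + 1) → Fin p) → Fin k → ℕ, (∀ A, Rep α (w A)) ∧
      ∀ A A', A ≠ A' → ∃ j j', ¬ ((w A' j : ℤ) - w A j ≡ (w A' j' : ℤ) - w A j' [ZMOD p]) := by
  classical
  set n' := finrank ℤ (LM α) with hn'
  have hn2 : m + 2 ≤ n' := finrank_LM hk hα
  let β : Basis (Fin n') ℤ (LM α) := Module.finBasis ℤ (LM α)
  set o : LM α := ⟨fun _ => (1:ℤ), one_mem_LM α⟩ with ho
  obtain ⟨i0, hi0⟩ : ∃ i0, ¬ (p : ℤ) ∣ β.repr o i0 := by
    by_contra hcon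
    push Not at hcon
    choose q hq using hcon
    have h2 : o = (p:ℤ) • ∑ i, q i • β i := by
      conv_lhs => rw [← β.sum_repr o]
      rw [Finset.smul_sum]
      refine Finset.sum_congr rfl fun i _ => ?_
      rw [smul_smul, hq i]
    have h3 := congrArg (fun x : LM α => (x : Fin k → ℤ) ⟨0, hk⟩) h2
    simp only [ho, Submodule.coe_smul, Pi.smul_apply, smul_eq_mul] at h3
    have h4 : (p:ℤ) ∣ 1 := ⟨_, h3⟩
    have h5 := Int.le_of_dvd one_pos h4
    have h6 := hp.two_le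
    omega
  obtain ⟨emb⟩ : Nonempty (Fin (m + 1) ↪ {i : Fin n' // i ≠ i0}) := by
    apply Function.Embedding.nonempty_of_card_le
    rw [Fintype.card_fin, Fintype.card_subtype_compl, Fintype.card_fin,
      Fintype.card_subtype_eq]
    omega
  set v : (Fin (m + 1) → Fin p) → LM α := fun A => ∑ l, ((A l : ℕ) : ℤ) • β (emb l) with hv
  choose w hw1 hw2 using fun A => to_nat α hp.pos (v A : Fin k → ℤ) (v A).2
  refine ⟨w, hw1, fun A A' hAA' => ?_⟩
  by_contra hcon
  push Not at hcon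
  apply hAA'
  -- the difference is constant modulo `p`
  set ε : ℤ := (w A' ⟨0, hk⟩ : ℤ) - w A ⟨0, hk⟩ with hε
  have hdvd : ∀ j, (p:ℤ) ∣ (v A' : Fin k → ℤ) j - (v A : Fin k → ℤ) j - ε := by
    intro j
    have h1 := hcon j ⟨0, hk⟩
    have h2 : (v A' : Fin k → ℤ) j - (v A : Fin k → ℤ) j ≡ ε [ZMOD p] :=
      ((hw2 A' j).symm.sub (hw2 A j).symm).trans h1
    exact Int.modEq_iff_dvd.mp h2.symm
  choose x hx using hdvd
  have hmem : x ∈ LM α := by
    apply LM_div hp.pos (v := (v A' : Fin k → ℤ) - (v A : Fin k → ℤ) - ε • (fun _ => (1:ℤ)))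
    · exact Submodule.sub_mem _ (Submodule.sub_mem _ (v A').2 (v A).2)
        (Submodule.smul_mem _ _ (one_mem_LM α))
    · intro j
      rw [← hx j]
      simp
  have heq : v A' - v A - ε • o = (p:ℤ) • (⟨x, hmem⟩ : LM α) := by
    apply Subtype.ext
    funext j
    have := hx j
    simp only [Submodule.coe_sub, Submodule.coe_smul, Pi.sub_apply, Pi.smul_apply, ho,
      smul_eq_mul, mul_one]
    exact this
  have hrv : ∀ B : Fin (m + 1) → Fin p, ∀ i, β.repr (v B) i =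
      ∑ l, ((B l : ℕ) : ℤ) * (if (emb l : Fin n') = i then 1 else 0) := by
    intro B i
    rw [hv]
    simp only [map_sum, map_smul, Basis.repr_self, Finsupp.coe_finsetSum, Finset.sum_apply,
      Finsupp.smul_apply, Finsupp.single_apply, smul_eq_mul]
  have hrv0 : ∀ B : Fin (m + 1) → Fin p, β.repr (v B) i0 = 0 := by
    intro B
    rw [hrv]
    apply Finset.sum_eq_zero
    intro l _
    rw [if_neg (emb l).2, mul_zero]
  have hrvl : ∀ B : Fin (m + 1) → Fin p, ∀ l, β.repr (v B) (emb l) = ((B l : ℕ) : ℤ) := by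
    intro B l
    rw [hrv, Finset.sum_eq_single l]
    · rw [if_pos rfl, mul_one]
    · intro l' _ hl'
      rw [if_neg, mul_zero]
      intro h
      exact hl' (emb.injective (Subtype.ext h))
    · intro h; exact absurd (Finset.mem_univ _) h
  have hcoord : ∀ i, β.repr (v A') i - β.repr (v A) i - ε * β.repr o i =
      p * β.repr ⟨x, hmem⟩ i := by
    intro i
    have h2 := congrArg (fun y => β.repr y i) heq
    simp only [map_sub, map_smul, Finsupp.sub_apply, Finsupp.smul_apply, smul_eq_mul] at h2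
    exact h2
  have hpε : (p:ℤ) ∣ ε := by
    have h1 := hcoord i0
    rw [hrv0, hrv0] at h1
    have h2 : (p:ℤ) ∣ ε * β.repr o i0 := ⟨-β.repr ⟨x, hmem⟩ i0, by linarith⟩
    exact (Int.Prime.dvd_mul' (by exact_mod_cast hp) h2 |>.resolve_right hi0)
  funext l
  have h1 := hcoord (emb l)
  rw [hrvl, hrvl] at h1
  obtain ⟨q, hq⟩ := hpε
  have h2 : (p:ℤ) ∣ ((A' l : ℕ) : ℤ) - ((A l : ℕ) : ℤ) := by
    refine ⟨q * β.repr o (emb l) + β.repr ⟨x, hmem⟩ (emb l), ?_⟩
    rw [hq] at h1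
    linarith
  have h3 : ((A l : ℕ) : ℤ) ≡ ((A' l : ℕ) : ℤ) [ZMOD p] := Int.modEq_iff_dvd.mpr h2
  have h4 : (A l : ℕ) ≡ (A' l : ℕ) [MOD p] := (Int.natCast_modEq_iff).mp h3
  exact Fin.ext (Nat.ModEq.eq_of_lt_of_lt h4 (A l).2 (A' l).2)

end Pool.Agent.Helper99.MVL
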