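import Mathlib
import Pool.Agent.Helper99.MVL.Ag
import Pool.Agent.Helper99.MVL.Eq
import Pool.Agent.Helper99.MVL.Fm

/-!
# The inequality for irreducible polynomials in several variables
-/

set_option autoImplicit false

open Finset Polynomial MeasureTheory Filter

namespace Pool.Agent.Helper99.MVL

open Pool.Agent.Helper99.TD
open Pool.Agent.H261R2.CM (tv mM spec AsympIndep F_continuous_tv mM_upper one_le_mM spec_ne_zero
  asympIndep_pow)

variable {k m : ℕ}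

/-- the points of the torus -/
noncomputable def exv {n : ℕ} (x : Fin n → ℝ) : Fin n → ℂ :=
  fun l => Complex.exp (2 * (Real.pi : ℂ) * Complex.I * ((x l : ℝ) : ℂ))

lemma tv_PV (c : Fin k → ℤ) (α : Fin k → Fin (m + 1) → ℕ) (x : Fin (m + 1) → ℝ) :
    tv (PV c α (fun _ => (1:ℤ))) x = ∑ j, (c j : ℂ) * ∏ l, exv x l ^ (α j l) := by
  unfold tv PV exv
  simp only [map_sum, map_mul, map_prod, map_pow, MvPolynomial.map_X, MvPolynomial.eval_X,
    mul_one, Int.cast_id, map_intCast, eq_intCast]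

lemma twist_real {α : Fin k → Fin (m + 1) → ℕ} {w : Fin k → ℕ} (hw : Rep α w) {μ : ℂ}
    (hμ : ‖μ‖ = 1) :
    ∃ (cc : Fin (m + 1) → ℝ) (κ : ℂ), ‖κ‖ = 1 ∧
      ∀ j, μ ^ (w j) = κ * ∏ l, exv cc l ^ (α j l) := by
  obtain ⟨u, u0, hu⟩ := hw
  have hμe : μ = Complex.exp (Complex.arg μ * Complex.I) := by
    have := Complex.norm_mul_exp_arg_mul_I μ
    rw [hμ] at this
    simpa using this.symm
  refine ⟨fun l => Complex.arg μ * u l / (2 * Real.pi),
    Complex.exp ((Complex.arg μ * u0 : ℝ) * Complex.I), Complex.norm_exp_ofReal_mul_I _,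
    fun j => ?_⟩
  conv_lhs => rw [hμe]
  rw [← Complex.exp_nat_mul]
  have h1 : ∀ l, exv (fun l => Complex.arg μ * u l / (2 * Real.pi)) l ^ (α j l) =
      Complex.exp ((α j l : ℕ) * ((Complex.arg μ * u l : ℝ) * Complex.I)) := by
    intro l
    unfold exv
    rw [← Complex.exp_nat_mul]
    congr 2
    have hpi : (Real.pi : ℂ) ≠ 0 := by exact_mod_cast Real.pi_ne_zero
    push_cast
    field_simp
  rw [Finset.prod_congr rfl fun l _ => h1 l, ← Complex.exp_sum, ← Complex.exp_add]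
  congr 1
  have h2 : ((w j : ℕ) : ℂ) = ((∑ l, u l * α j l + u0 : ℝ) : ℂ) := by
    rw [← hu j]
    push_cast
    rfl
  rw [h2]
  push_cast
  rw [add_mul, Finset.sum_mul, add_comm]
  congr 1
  · ring
  · refine Finset.sum_congr rfl fun l _ => ?_
    ring

lemma exv_add {n : ℕ} (x y : Fin n → ℝ) (l : Fin n) : exv (x + y) l = exv x l * exv y l := by
  unfold exv
  rw [← Complex.exp_add]
  congr 1
  simp only [Pi.add_apply]
  push_cast
  ring

/-- the specialisation as a ring homomorphism -/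
noncomputable def sp' (e : Fin m → ℕ) : MvPolynomial (Fin m) ℤ →+* ℤ[X] :=
  ((spec e : MvPolynomial (Fin m) ℤ →ₐ[ℤ] ℤ[X]) : MvPolynomial (Fin m) ℤ →+* ℤ[X])

lemma sp'_apply (e : Fin m → ℕ) (C : MvPolynomial (Fin m) ℤ) : sp' e C = spec e C := rfl

lemma eval_spec (α : Fin k → Fin (m + 1) → ℕ) (i0 : Fin (m + 1)) (e : Fin m → ℕ) (τ : ℝ)
    (j : Fin k) : eval₂ (Int.castRingHom ℂ) (ep τ) (sp' e (mo ℤ α i0 j)) =
      ∏ l, (ep τ ^ (e l)) ^ (α j (i0.succAbove l)) := by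
  rw [sp'_apply]
  unfold mo spec
  rw [map_prod, ← coe_eval₂RingHom, map_prod]
  refine Finset.prod_congr rfl fun l _ => ?_
  rw [map_pow, map_pow]
  congr 1
  simp

lemma eval_g (c : Fin k → ℤ) (α : Fin k → Fin (m + 1) → ℕ) (i0 : Fin (m + 1)) (e : Fin m → ℕ)
    {w : Fin k → ℕ} {μ κ : ℂ} {cc : Fin (m + 1) → ℝ}
    (h : ∀ j, μ ^ (w j) = κ * ∏ l, exv cc l ^ (α j l)) (t τ : ℝ) :
    eval (ep t) (TP c (fun j => α j i0) (yt μ w (fun j => eval₂ (Int.castRingHom ℂ) (ep τ)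
      (sp' e (mo ℤ α i0 j))))) =
      κ * tv (PV c α (fun _ => (1:ℤ))) (cc + pt2 i0 e t τ) := by
  rw [tv_PV, Finset.mul_sum]
  unfold TP
  rw [eval_finsetSum]
  refine Finset.sum_congr rfl fun j _ => ?_
  rw [eval_mul, eval_C, eval_pow, eval_X]
  unfold yt
  dsimp only
  rw [h j, eval_spec]
  have h1 : ∏ l, exv (cc + pt2 i0 e t τ) l ^ (α j l) =
      (∏ l, exv cc l ^ (α j l)) * (ep t ^ (α j i0) *
        ∏ l, (ep τ ^ (e l)) ^ (α j (i0.succAbove l))) := by
    have e1 : ∀ l, exv (cc + pt2 i0 e t τ) l ^ (α j l) =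
        exv cc l ^ (α j l) * exv (pt2 i0 e t τ) l ^ (α j l) := by
      intro l
      rw [exv_add, mul_pow]
    rw [Finset.prod_congr rfl fun l _ => e1 l, Finset.prod_mul_distrib]
    congr 1
    rw [Fin.prod_univ_succAbove _ i0]
    have e2 : exv (pt2 i0 e t τ) i0 = ep t := by
      unfold exv ep
      rw [pt2_same]
    have e3 : ∀ l, exv (pt2 i0 e t τ) (i0.succAbove l) = ep τ ^ (e l) := by
      intro l
      rw [ep_pow]
      unfold exv
      rw [pt2_other]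
    rw [e2]
    congr 1
    refine Finset.prod_congr rfl fun l _ => ?_
    rw [e3]
  rw [h1]
  ring

lemma reg_cont (P : MvPolynomial (Fin (m + 1)) ℤ) (x0 : Fin (m + 1) → ℝ) (i0 : Fin (m + 1))
    (e : Fin m → ℕ) {δ : ℝ} (hδ : 0 < δ) {Y : Type*} [TopologicalSpace Y] {f g : Y → ℝ}
    (hf : Continuous f) (hg : Continuous g) :
    Continuous (fun q : Y =>
      (1 / 2 : ℝ) * Real.log (‖tv P (x0 + pt2 i0 e (f q) (g q))‖ ^ 2 + δ)) := by
  have h0 : Continuous (fun q : Y => pt2 i0 e (f q) (g q)) := by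
    refine continuous_pi fun j => ?_
    rcases Fin.eq_self_or_eq_succAbove i0 j with h | ⟨l, h⟩
    · subst h
      simp only [pt2_same]
      exact hf
    · subst h
      simp only [pt2_other]
      exact continuous_const.mul hg
  have h1 : Continuous (fun q : Y => tv P (x0 + pt2 i0 e (f q) (g q))) :=
    (F_continuous_tv P).comp (continuous_const.add h0)
  apply Continuous.mul continuous_const
  apply Continuous.log
  · fun_prop
  · intro q
    positivity

lemma reg_int_cont (P : MvPolynomial (Fin (m + 1)) ℤ) (x0 : Fin (m + 1) → ℝ) (i0 : Fin (m + 1))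
    (e : Fin m → ℕ) {δ : ℝ} (hδ : 0 < δ) :
    Continuous (fun τ : ℝ => ∫ t in (0:ℝ)..1,
      (1 / 2 : ℝ) * Real.log (‖tv P (x0 + pt2 i0 e t τ)‖ ^ 2 + δ)) := by
  apply intervalIntegral.continuous_parametric_intervalIntegral_of_continuous' (μ := volume)
  exact reg_cont P x0 i0 e hδ (Y := ℝ × ℝ) continuous_snd continuous_fst

/-- the inequality, regularised -/
theorem main_reg {p : ℕ} (hp : p.Prime) {K : Type*} [Field K] [CharZero K] (ψ : K →+* ℂ) {ζ : K}
    (hζ : IsPrimitiveRoot ζ p) (c : Fin k → ℤ) {α : Fin k → Fin (m + 1) → ℕ}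
    (hα : Function.Injective α) (hfull : Full α) (hc : ∀ j, c j ≠ 0) (i0 : Fin (m + 1)) {D : ℕ}
    (hDpos : 0 < D) (hD : ∀ j, α j i0 ≤ D) (jt : Fin k) (hjt : α jt i0 = D)
    (hirr : Irreducible (PV c α (fun _ => (1:K)))) {x : ℝ}
    (hx : 2 * Real.log (mM (PV c α (fun _ => (1:ℤ)))) < x) :
    ((p:ℝ) ^ (m + 1) * ((p:ℝ) ^ (m + 1) - 1)) * (D * Real.log p) ≤
      ((p:ℝ) - 1) * (((p:ℝ) ^ (m + 1) * D) * Real.log ((p:ℝ) ^ (m + 1) * D)) +
      ((p:ℝ) ^ (m + 1) * D) * (((p:ℝ) - 1) * ((p:ℝ) ^ (m + 1) * x)) := by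
  classical
  have hk : 0 < k := Fin.pos jt
  set P := PV c α (fun _ => (1:ℤ)) with hP
  have hcoefP : MvPolynomial.coeff (fs (α jt)) P = c jt := by
    rw [hP, PV_coeff c hα]
    simp
  have hP0 : P ≠ 0 := by
    intro h0
    rw [h0, MvPolynomial.coeff_zero] at hcoefP
    exact hc jt hcoefP.symm
  have hM1 : 0 ≤ Real.log (mM P) := Real.log_nonneg (one_le_mM P hP0)
  obtain ⟨δ, hδ, hδx⟩ := mM_upper P hP0 x hx
  obtain ⟨w, hw1, hw2⟩ := exists_twists hk hfull hp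
  have hμn : ∀ μ ∈ primitiveRoots p ℂ, ‖μ‖ = 1 := by
    intro μ hμ
    exact ((mem_primitiveRoots hp.pos).mp hμ).norm'_eq_one hp.ne_zero
  -- the translations
  have hex : ∀ (μ : ℂ) (A : Fin (m + 1) → Fin p), ∃ (cc : Fin (m + 1) → ℝ) (κ : ℂ),
      μ ∈ primitiveRoots p ℂ → (‖κ‖ = 1 ∧ ∀ j, μ ^ (w A j) = κ * ∏ l, exv cc l ^ (α j l)) := by
    intro μ A
    by_cases hμ : μ ∈ primitiveRoots p ℂ
    · obtain ⟨cc, κ, h1, h2⟩ := twist_real (hw1 A) (hμn μ hμ)
      exact ⟨cc, κ, fun _ => ⟨h1, h2⟩⟩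
    · exact ⟨0, 1, fun h => absurd h hμ⟩
  choose cc κ hcc using hex
  set E : ℕ → Fin m → ℕ := fun n l => n ^ (l : ℕ) with hE
  have hEind : AsympIndep atTop E := asympIndep_pow m
  -- good exponents
  have hev : ∀ᶠ n in atTop, (∀ μ ∈ primitiveRoots p ℂ, ∀ A,
      ∫ τ in (0:ℝ)..1, ∫ t in (0:ℝ)..1,
        Real.log (‖tv P (cc μ A + pt2 i0 (E n) t τ)‖ ^ 2 + δ) < x) ∧
      (∀ A A', A ≠ A' → sp' (E n) (NZ p (WW c (fun j => α j i0) D (w A) (w A')
        (mo ℤ α i0))) ≠ 0) ∧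
      (∀ A, sp' (E n) (NZ p (RD c (fun j => α j i0) D (yz (w A) (mo ℤ α i0)))) ≠ 0) := by
    apply Filter.Eventually.and
    · rw [Filter.eventually_all_finset]
      intro μ _
      rw [Filter.eventually_all]
      intro A
      exact (equi2_log atTop E hEind (cc μ A) i0 P hδ).eventually_lt_const hδx
    apply Filter.Eventually.and
    · rw [Filter.eventually_all]
      intro A
      rw [Filter.eventually_all]
      intro A'
      rw [Filter.eventually_all]
      intro hAA'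
      simp only [sp'_apply]
      apply spec_ne_zero atTop E hEind
      exact (norms_ne hp ψ hζ c hα hc i0 hDpos hD jt hjt hirr (hw1 A) (hw2 A A' hAA')).1
    · rw [Filter.eventually_all]
      intro A
      simp only [sp'_apply]
      apply spec_ne_zero atTop E hEind
      obtain ⟨A', hA'⟩ : ∃ A' : Fin (m + 1) → Fin p, A ≠ A' := by
        have : Nontrivial (Fin p) := Fin.nontrivial_iff_two_le.mpr hp.two_le
        obtain ⟨b, hb⟩ := exists_ne A
        exact ⟨b, hb.symm⟩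
      exact (norms_ne hp ψ hζ c hα hc i0 hDpos hD jt hjt hirr (hw1 A) (hw2 A A' hA')).2
  obtain ⟨n, hn1, hn2, hn3⟩ := hev.exists
  set e := E n with he
  have hne : Nonempty (Fin (m + 1) → Fin p) := ⟨fun _ => ⟨0, hp.pos⟩⟩
  set U : ℂ → (Fin (m + 1) → Fin p) → ℝ → ℝ := fun μ A τ =>
    ∫ t in (0:ℝ)..1, (1 / 2 : ℝ) * Real.log (‖tv P (cc μ A + pt2 i0 e t τ)‖ ^ 2 + δ) with hU
  have hUc : ∀ μ A, Continuous (U μ A) := fun μ A => reg_int_cont P (cc μ A) i0 e hδ
  have hmain := averaged hp (sp' e) c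
    (fun j => α j i0) hDpos hD (mo ℤ α i0) w (fun A A' h => hn2 A A' h) (fun A => hn3 A) U hUc (by
      intro μ hμ A τ hg0
      obtain ⟨hκ, hκ2⟩ := hcc μ A hμ
      have hfc1 : Continuous (fun t : ℝ =>
          (1 / 2 : ℝ) * Real.log (‖tv P (cc μ A + pt2 i0 e t τ)‖ ^ 2 + δ)) :=
        reg_cont P (cc μ A) i0 e hδ continuous_id continuous_const
      have hmono := lmm_le hg0 (φ := fun t =>
        (1 / 2 : ℝ) * Real.log (‖tv P (cc μ A + pt2 i0 e t τ)‖ ^ 2 + δ)) hfc1 (by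
          intro t ht
          rw [eval_g c α i0 e hκ2] at ht ⊢
          rw [norm_mul, hκ, one_mul]
          have hpos : 0 < ‖tv P (cc μ A + pt2 i0 e t τ)‖ :=
            norm_pos_iff.mpr (right_ne_zero_of_mul ht)
          have h1 : Real.log ‖tv P (cc μ A + pt2 i0 e t τ)‖ =
              (1 / 2 : ℝ) * Real.log (‖tv P (cc μ A + pt2 i0 e t τ)‖ ^ 2) := by
            rw [Real.log_pow]
            push_cast
            ring
          rw [h1]
          apply mul_le_mul_of_nonneg_left _ (by norm_num)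
          apply Real.log_le_log (by positivity)
          linarith)
      exact hmono)
  have hcard : (Fintype.card (Fin (m + 1) → Fin p) : ℝ) = (p:ℝ) ^ (m + 1) := by
    rw [Fintype.card_fun, Fintype.card_fin, Fintype.card_fin]
    push_cast
    rfl
  rw [hcard] at hmain
  set N : ℝ := (p:ℝ) ^ (m + 1) with hN
  have hN1 : 1 ≤ N := one_le_pow₀ (by exact_mod_cast hp.one_le)
  have hD1 : (1:ℝ) ≤ D := by exact_mod_cast hDpos
  have hcardp : ((primitiveRoots p ℂ).card : ℝ) = (p:ℝ) - 1 := by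
    rw [(Complex.isPrimitiveRoot_exp p hp.ne_zero).card_primitiveRoots, Nat.totient_prime hp,
      Nat.cast_pred hp.pos]
  have hUint : ∀ μ ∈ primitiveRoots p ℂ, ∀ A, ∫ τ in (0:ℝ)..1, U μ A τ ≤ x / 2 := by
    intro μ hμ A
    have h1 := hn1 μ hμ A
    have h2 : ∫ τ in (0:ℝ)..1, U μ A τ = (1 / 2 : ℝ) * ∫ τ in (0:ℝ)..1, ∫ t in (0:ℝ)..1,
        Real.log (‖tv P (cc μ A + pt2 i0 e t τ)‖ ^ 2 + δ) := by
      rw [← intervalIntegral.integral_const_mul]
      refine intervalIntegral.integral_congr fun τ _ => ?_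
      rw [hU]
      dsimp only
      rw [intervalIntegral.integral_const_mul]
    rw [h2]
    linarith
  have hsum : ∑ μ ∈ primitiveRoots p ℂ, ∑ A, ∫ τ in (0:ℝ)..1, U μ A τ ≤
      ((p:ℝ) - 1) * (N * (x / 2)) := by
    calc ∑ μ ∈ primitiveRoots p ℂ, ∑ A, ∫ τ in (0:ℝ)..1, U μ A τ
        ≤ ∑ μ ∈ primitiveRoots p ℂ, ∑ A : Fin (m + 1) → Fin p, x / 2 :=
          Finset.sum_le_sum fun μ hμ => Finset.sum_le_sum fun A _ => hUint μ hμ A
      _ = _ := by
          rw [Finset.sum_const, Finset.sum_const, Finset.card_univ, nsmul_eq_mul, nsmul_eq_mul,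
            hcardp, hcard]
  have hx0 : 0 ≤ x := by linarith
  have hp1 : (0:ℝ) ≤ (p:ℝ) - 1 := by
    have : (1:ℝ) ≤ p := by exact_mod_cast hp.one_le
    linarith
  have hND : 1 ≤ N * D := one_le_mul_of_one_le_of_one_le hN1 hD1
  refine hmain.trans ?_
  have h1 : (2 * (N * D) - 1) * ∑ μ ∈ primitiveRoots p ℂ, ∑ A, ∫ τ in (0:ℝ)..1, U μ A τ ≤
      (2 * (N * D) - 1) * (((p:ℝ) - 1) * (N * (x / 2))) := by
    apply mul_le_mul_of_nonneg_left hsum
    linarith
  have h2 : (2 * (N * D) - 1) * (((p:ℝ) - 1) * (N * (x / 2))) ≤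
      (N * D) * (((p:ℝ) - 1) * (N * x)) := by
    have h3 : 0 ≤ ((p:ℝ) - 1) * (N * (x / 2)) := by positivity
    nlinarith
  linarith

/-- the inequality -/
theorem main_ineq {p : ℕ} (hp : p.Prime) {K : Type*} [Field K] [CharZero K] (ψ : K →+* ℂ) {ζ : K}
    (hζ : IsPrimitiveRoot ζ p) (c : Fin k → ℤ) {α : Fin k → Fin (m + 1) → ℕ}
    (hα : Function.Injective α) (hfull : Full α) (hc : ∀ j, c j ≠ 0) (i0 : Fin (m + 1)) {D : ℕ}
    (hDpos : 0 < D) (hD : ∀ j, α j i0 ≤ D) (jt : Fin k) (hjt : α jt i0 = D)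
    (hirr : Irreducible (PV c α (fun _ => (1:K)))) :
    (1 - 1 / (p:ℝ) ^ (m + 1)) * (Real.log p / (p - 1)) ≤
      2 * Real.log (mM (PV c α (fun _ => (1:ℤ)))) +
        Real.log ((p:ℝ) ^ (m + 1) * D) / (p:ℝ) ^ (m + 1) := by
  apply le_of_forall_pos_le_add
  intro η hη
  have h1 := main_reg hp ψ hζ c hα hfull hc i0 hDpos hD jt hjt hirr
    (x := 2 * Real.log (mM (PV c α (fun _ => (1:ℤ)))) + η) (by linarith)
  have hp1 : (0:ℝ) < (p:ℝ) - 1 := by
    have : (1:ℝ) < p := by exact_mod_cast hp.one_lt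
    linarith
  set N : ℝ := (p:ℝ) ^ (m + 1) with hN
  have hN0 : 0 < N := pow_pos (by exact_mod_cast hp.pos) _
  have hD0 : (0:ℝ) < D := by exact_mod_cast hDpos
  set y := Real.log (mM (PV c α (fun _ => (1:ℤ)))) with hy
  have h2 : (1 - 1 / N) * (Real.log p / (p - 1)) =
      ((N * (N - 1)) * (D * Real.log p)) / (N * N * D * (p - 1)) := by
    field_simp
  have h3 : 2 * y + Real.log (N * D) / N + η =
      (((p:ℝ) - 1) * ((N * D) * Real.log (N * D)) +
      (N * D) * (((p:ℝ) - 1) * (N * (2 * y + η)))) / (N * N * D * (p - 1)) := by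
    field_simp
    ring
  rw [h2, h3]
  apply div_le_div_of_nonneg_right h1
  positivity

end Pool.Agent.Helper99.MVL
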