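import Mathlib
import Pool.Agent.Helper99.MVL.As

/-!
# The inequality in terms of multivariate polynomials
-/

set_option autoImplicit false

open Finset

namespace Pool.Agent.Helper99.MVL

open Pool.Agent.H261R2.CM (tv mM)

/-- the Newton polytope is full dimensional -/
def FullDim {s : ℕ} (P : MvPolynomial (Fin s) ℤ) : Prop :=
  ∀ u : Fin s → ℤ, (∀ a ∈ P.support, ∀ b ∈ P.support,
    ∑ i, u i * (a i : ℤ) = ∑ i, u i * (b i : ℤ)) → u = 0

/-- the enumeration of the monomials -/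
theorem exists_data {m : ℕ} (P : MvPolynomial (Fin (m + 1)) ℤ) (i0 : Fin (m + 1))
    (hP : FullDim P) :
    ∃ (k : ℕ) (c : Fin k → ℤ) (α : Fin k → Fin (m + 1) → ℕ), Function.Injective α ∧ Full α ∧
      (∀ j, c j ≠ 0) ∧ 0 < P.degreeOf i0 ∧ (∀ j, α j i0 ≤ P.degreeOf i0) ∧
      (∃ jt, α jt i0 = P.degreeOf i0) ∧ 2 ≤ k ∧ k = P.support.card ∧
      ∀ (R : Type) [CommRing R], PV c α (fun _ => (1:R)) = MvPolynomial.map (Int.castRingHom R) P := by
  classical
  set k := P.support.card with hk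
  let e : Fin k ≃ P.support := P.support.equivFin.symm
  set c : Fin k → ℤ := fun j => P.coeff (e j) with hc
  set α : Fin k → Fin (m + 1) → ℕ := fun j l => (e j : Fin (m + 1) →₀ ℕ) l with hα
  have hαinj : Function.Injective α := by
    intro j j' h
    apply e.injective
    apply Subtype.ext
    ext l
    exact congrFun h l
  have hfull : Full α := by
    intro u hu
    apply hP
    intro a ha b hb
    have := hu (e.symm ⟨a, ha⟩) (e.symm ⟨b, hb⟩)
    simpa [hα] using this
  have hcne : ∀ j, c j ≠ 0 := fun j => MvPolynomial.mem_support_iff.mp (e j).2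
  have hle : ∀ j, α j i0 ≤ P.degreeOf i0 := by
    intro j
    rw [MvPolynomial.degreeOf_eq_sup]
    exact Finset.le_sup (f := fun m : Fin (m + 1) →₀ ℕ => m i0) (e j).2
  have hk2 : 2 ≤ k := by
    by_contra hcon
    have h1 : k ≤ 1 := by omega
    have h2 := hP (fun _ => 1) (by
      intro a ha b hb
      have : a = b := Finset.card_le_one.mp h1 a ha b hb
      rw [this])
    have := congrFun h2 i0
    simp at this
  have hne : P.support.Nonempty := by
    rw [← Finset.card_pos]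
    omega
  have hmax : ∃ jt, α jt i0 = P.degreeOf i0 := by
    obtain ⟨a, ha, ha2⟩ := Finset.exists_mem_eq_sup P.support hne
      (fun m : Fin (m + 1) →₀ ℕ => m i0)
    refine ⟨e.symm ⟨a, ha⟩, ?_⟩
    rw [MvPolynomial.degreeOf_eq_sup, ha2]
    simp [hα]
  have hpos : 0 < P.degreeOf i0 := by
    by_contra hcon
    have h0 : ∀ a ∈ P.support, a i0 = 0 := by
      intro a ha
      have h1 := Finset.le_sup (f := fun m : Fin (m + 1) →₀ ℕ => m i0) ha
      rw [← MvPolynomial.degreeOf_eq_sup] at h1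
      omega
    have h2 := hP (fun l => if l = i0 then 1 else 0) (by
      intro a ha b hb
      simp [h0 a ha, h0 b hb])
    have := congrFun h2 i0
    simp at this
  refine ⟨k, c, α, hαinj, hfull, hcne, hpos, hle, hmax, hk2, rfl, fun R _ => ?_⟩
  rw [PV_eq]
  conv_rhs => rw [P.as_sum, map_sum]
  rw [← Finset.sum_coe_sort P.support, ← Equiv.sum_comp e]
  refine Finset.sum_congr rfl fun j _ => ?_
  have hfs : fs (α j) = (e j : Fin (m + 1) →₀ ℕ) := by
    ext l
    rfl
  rw [MvPolynomial.map_monomial, mul_one, hfs]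
  rfl

/-- the inequality -/
theorem ineq {s : ℕ} (P : MvPolynomial (Fin s) ℤ) (hP : FullDim P) (i : Fin s) {D : ℝ}
    (hD : (P.degreeOf i : ℝ) ≤ D) {p : ℕ} (hp : p.Prime)
    (hirr : ∃ (K : Type) (_ : Field K) (_ : CharZero K) (_ : K →+* ℂ) (ζ : K),
      IsPrimitiveRoot ζ p ∧ Irreducible (MvPolynomial.map (Int.castRingHom K) P)) :
    (1 - 1 / (p:ℝ) ^ s) * (Real.log p / (p - 1)) ≤
      2 * Real.log (mM P) + Real.log ((p:ℝ) ^ s * D) / (p:ℝ) ^ s := by
  obtain ⟨m, rfl⟩ : ∃ m, s = m + 1 := ⟨s - 1, by have := i.pos; omega⟩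
  obtain ⟨k, c, α, hα, hfull, hc, hpos, hle, ⟨jt, hjt⟩, _, _, hPV⟩ := exists_data P i hP
  obtain ⟨K, hF, hC, ψ, ζ, hζ, hirr⟩ := hirr
  have h1 := main_ineq hp ψ hζ c hα hfull hc i hpos hle jt hjt (by rw [hPV]; exact hirr)
  have h2 : MvPolynomial.map (Int.castRingHom ℤ) P = P := by
    rw [show Int.castRingHom ℤ = RingHom.id ℤ from rfl, MvPolynomial.map_id]
  rw [hPV, h2] at h1
  refine h1.trans ?_
  have hN : (0:ℝ) < (p:ℝ) ^ (m + 1) := pow_pos (by exact_mod_cast hp.pos) _
  have hD0 : (0:ℝ) < P.degreeOf i := by exact_mod_cast hpos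
  apply add_le_add le_rfl
  apply div_le_div_of_nonneg_right _ hN.le
  apply Real.log_le_log (by positivity)
  exact mul_le_mul_of_nonneg_left hD hN.le

/-- the numerical lemma for the choice of the prime -/
lemma numeric_choice {s : ℕ} (hs : 2 ≤ s) {L l y : ℝ} (hl : 0 < l) (hlL : l ≤ L)
    (hL : L = Real.exp l) (hL0 : 1 ≤ y) (hy : y ^ (s - 1) = 16 * s * L / l) (hlog : Real.log l ≤ l / 2)
    {p : ℕ} (hp : p.Prime) (hp1 : y < p) (hp2 : (p:ℝ) ≤ 4 * y) {M : ℝ}
    (h : (1 - 1 / (p:ℝ) ^ s) * (Real.log p / (p - 1)) ≤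
      2 * M + Real.log ((p:ℝ) ^ s * Real.exp L) / (p:ℝ) ^ s) :
    l / (32 * (s - 1) * y) ≤ M := by
  have hp0 : (0:ℝ) < p := by exact_mod_cast hp.pos
  have hp2' : (2:ℝ) ≤ p := by exact_mod_cast hp.two_le
  have hlogp : 0 < Real.log p := Real.log_pos (by linarith)
  have hsr : (2:ℝ) ≤ s := by exact_mod_cast hs
  have hs1 : ((s - 1 : ℕ) : ℝ) = (s:ℝ) - 1 := by
    rw [Nat.cast_sub (by omega)]
    simp
  have hy0 : 0 < y := by linarith
  have hLpos : 0 < L := by linarith
  -- log y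
  have hlogy : ((s:ℝ) - 1) * Real.log y = Real.log (16 * s) + l - Real.log l := by
    have h1 := congrArg Real.log hy
    rw [Real.log_pow, hs1, mul_div_assoc, Real.log_mul (by positivity) (by positivity),
      Real.log_div hLpos.ne' hl.ne', hL, Real.log_exp] at h1
    linarith
  have h16 : 0 ≤ Real.log (16 * s) := Real.log_nonneg (by linarith)
  have hlogy2 : l / 2 ≤ ((s:ℝ) - 1) * Real.log y := by
    rw [hlogy]
    linarith
  have hlogy3 : l / (2 * (s - 1)) ≤ Real.log y := by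
    rw [div_le_iff₀ (by linarith)]
    nlinarith
  have hlogyp : Real.log y ≤ Real.log p := Real.log_le_log hy0 hp1.le
  have hpow : y ^ (s - 1) ≤ (p:ℝ) ^ (s - 1) := pow_le_pow_left₀ hy0.le hp1.le _
  have hps : (p:ℝ) ^ s = (p:ℝ) ^ (s - 1) * p := by
    rw [← pow_succ]
    congr 1
    omega
  -- the error term
  have hE1 : 8 * L ≤ (p:ℝ) ^ (s - 1) * Real.log p := by
    calc 8 * L ≤ (16 * s * L / l) * (l / (2 * (s - 1))) := by
          rw [div_mul_div_comm, le_div_iff₀ (by
            have : (0:ℝ) < s - 1 := by linarith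
            positivity)]
          nlinarith [mul_pos hLpos hl]
      _ = y ^ (s - 1) * (l / (2 * (s - 1))) := by rw [hy]
      _ ≤ (p:ℝ) ^ (s - 1) * Real.log p := by
          apply mul_le_mul hpow (hlogy3.trans hlogyp)
          · have : (0:ℝ) < s - 1 := by linarith
            positivity
          · positivity
  have hE2 : 8 * s ≤ (p:ℝ) ^ (s - 1) := by
    calc (8:ℝ) * s ≤ 16 * s * L / l := by
          rw [le_div_iff₀ hl]
          nlinarith
      _ = y ^ (s - 1) := hy.symm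
      _ ≤ _ := hpow
  have hNpos : 0 < (p:ℝ) ^ s := by positivity
  have hN4 : (4:ℝ) ≤ (p:ℝ) ^ s := by
    calc (4:ℝ) = 2 ^ 2 := by norm_num
      _ ≤ (p:ℝ) ^ 2 := by gcongr
      _ ≤ (p:ℝ) ^ s := pow_le_pow_right₀ (by linarith) hs
  have hE : Real.log ((p:ℝ) ^ s * Real.exp L) / (p:ℝ) ^ s ≤ (1 / 4) * (Real.log p / p) := by
    rw [Real.log_mul hNpos.ne' (Real.exp_pos _).ne', Real.log_pow, Real.log_exp,
      div_le_iff₀ hNpos]
    have h1 : (1 / 4) * (Real.log p / p) * (p:ℝ) ^ s = (1 / 4) * ((p:ℝ) ^ (s - 1) * Real.log p) := by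
      rw [hps]
      field_simp
    rw [h1]
    have h2 : (s:ℝ) * Real.log p ≤ (1 / 8) * ((p:ℝ) ^ (s - 1) * Real.log p) := by
      nlinarith
    linarith
  have hmain : (3 / 4) * (Real.log p / p) ≤ (1 - 1 / (p:ℝ) ^ s) * (Real.log p / (p - 1)) := by
    apply mul_le_mul
    · have : 1 / (p:ℝ) ^ s ≤ 1 / 4 := one_div_le_one_div_of_le (by norm_num) hN4
      linarith
    · apply div_le_div_of_nonneg_left hlogp.le (by linarith) (by linarith)
    · positivity
    · have : 1 / (p:ℝ) ^ s ≤ 1 / 4 := one_div_le_one_div_of_le (by norm_num) hN4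
      linarith
  have h3 : (1 / 4) * (Real.log p / p) ≤ M := by linarith
  refine le_trans ?_ h3
  have h4 : l / (2 * (s - 1)) / (4 * y) ≤ Real.log p / p := by
    apply div_le_div₀ hlogp.le (hlogy3.trans hlogyp) hp0 hp2
  calc l / (32 * (s - 1) * y) = (1 / 4) * (l / (2 * (s - 1)) / (4 * y)) := by
        have : (s:ℝ) - 1 ≠ 0 := by linarith
        field_simp
        ring
    _ ≤ _ := by linarith

lemma log_le_half {l : ℝ} (hl : 0 < l) : Real.log l ≤ l / 2 := by
  have h1 := Real.log_le_sub_one_of_pos (show 0 < l / 2 by positivity)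
  rw [Real.log_div hl.ne' (by norm_num)] at h1
  have h2 := Real.log_two_lt_d9
  linarith

/-- the bound of Lehmer type -/
theorem lehmer_type {s : ℕ} (hs : 2 ≤ s) (P : MvPolynomial (Fin s) ℤ) (hP : FullDim P)
    (i : Fin s) {D : ℝ} (hD16 : 16 ≤ D) (hD : (P.degreeOf i : ℝ) ≤ D)
    (hirr : Irreducible (MvPolynomial.map (Int.castRingHom ℂ) P)) :
    Real.log (Real.log D) / (1024 * (s - 1)) *
      (Real.log (Real.log D) / Real.log D) ^ ((1:ℝ) / (s - 1)) ≤ Real.log (mM P) := by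
  have hsr : (2:ℝ) ≤ s := by exact_mod_cast hs
  set L := Real.log D with hLdef
  have hL1 : Real.exp 1 < L := by
    have h1 : (2.7182818286:ℝ) < Real.log 16 := by
      have : Real.log 16 = 4 * Real.log 2 := by
        rw [show (16:ℝ) = 2 ^ 4 by norm_num, Real.log_pow]
        norm_num
      rw [this]
      have := Real.log_two_gt_d9
      linarith
    have h2 := Real.exp_one_lt_d9
    have h3 : Real.log 16 ≤ L := Real.log_le_log (by norm_num) hD16
    linarith
  have hLpos : 0 < L := (Real.exp_pos 1).trans hL1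
  set l := Real.log L with hldef
  have hl1 : 1 < l := by
    rw [hldef, Real.lt_log_iff_exp_lt hLpos]
    exact hL1
  have hl : 0 < l := by linarith
  have hlL : l ≤ L := by
    have := Real.log_le_sub_one_of_pos hLpos
    linarith
  have hLe : L = Real.exp l := (Real.exp_log hLpos).symm
  set Y : ℝ := 16 * s * L / l with hY
  have hY1 : 16 * s ≤ Y := by
    rw [hY, le_div_iff₀ hl]
    nlinarith
  have hYpos : 0 < Y := by nlinarith
  set y : ℝ := Y ^ ((1:ℝ) / (s - 1)) with hy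
  have hs1 : ((s - 1 : ℕ) : ℝ) = (s:ℝ) - 1 := by
    rw [Nat.cast_sub (by omega)]
    simp
  have hs1' : (s:ℝ) - 1 ≠ 0 := by linarith
  have hypow : y ^ (s - 1) = Y := by
    rw [hy, ← Real.rpow_natCast, ← Real.rpow_mul hYpos.le, hs1, one_div,
      inv_mul_cancel₀ hs1', Real.rpow_one]
  have hy1 : 1 ≤ y := by
    apply Real.one_le_rpow (by nlinarith)
    apply div_nonneg zero_le_one
    linarith
  have hy0 : 0 < y := by linarith
  -- the prime
  obtain ⟨p, hp, hp1, hp2⟩ := Nat.exists_prime_lt_and_le_two_mul ⌈y⌉₊ (Nat.ceil_pos.mpr hy0).ne'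
  have hp1' : y < p := lt_of_le_of_lt (Nat.le_ceil y) (by exact_mod_cast hp1)
  have hp2' : (p:ℝ) ≤ 4 * y := by
    have h1 : (p:ℝ) ≤ 2 * ⌈y⌉₊ := by exact_mod_cast hp2
    have h2 := (Nat.ceil_lt_add_one hy0.le).le
    linarith
  have hDpos : 0 < D := by linarith
  have hineq := ineq P hP i hD hp ⟨ℂ, inferInstance, inferInstance, RingHom.id ℂ,
    Complex.exp (2 * Real.pi * Complex.I / p), Complex.isPrimitiveRoot_exp p hp.ne_zero, hirr⟩
  have hDe : D = Real.exp L := (Real.exp_log hDpos).symm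
  rw [hDe] at hineq
  have h1 := numeric_choice hs hl hlL hLe hy1 hypow (log_le_half hl) hp hp1' hp2' hineq
  refine le_trans ?_ h1
  -- compare the two forms
  have hy2 : y = (16 * s) ^ ((1:ℝ) / (s - 1)) * (L / l) ^ ((1:ℝ) / (s - 1)) := by
    rw [hy, hY, mul_div_assoc, Real.mul_rpow (by positivity) (by positivity)]
  have h32 : (16 * (s:ℝ)) ^ ((1:ℝ) / (s - 1)) ≤ 32 := by
    have h2 : 16 * (s:ℝ) ≤ 32 ^ (s - 1) := by
      obtain ⟨n, rfl⟩ : ∃ n, s = n + 2 := ⟨s - 2, by omega⟩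
      clear * -
      have : n + 2 - 1 = n + 1 := by omega
      rw [this]
      have h5 : ∀ n : ℕ, 16 * ((n + 2 : ℕ) : ℝ) ≤ 32 ^ (n + 1) := by
        intro n
        induction n with
        | zero => norm_num
        | succ n ih =>
          rw [pow_succ]
          push_cast at ih ⊢
          nlinarith [Nat.cast_nonneg (α := ℝ) n]
      exact h5 n
    calc (16 * (s:ℝ)) ^ ((1:ℝ) / (s - 1)) ≤ ((32:ℝ) ^ (s - 1)) ^ ((1:ℝ) / (s - 1)) := by
          apply Real.rpow_le_rpow (by positivity) h2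
          apply div_nonneg zero_le_one
          linarith
      _ = 32 := by
          rw [← Real.rpow_natCast, ← Real.rpow_mul (by norm_num), hs1, one_div,
            mul_inv_cancel₀ hs1', Real.rpow_one]
  have hrinv : (l / L) ^ ((1:ℝ) / (s - 1)) = ((L / l) ^ ((1:ℝ) / (s - 1)))⁻¹ := by
    rw [← Real.inv_rpow (by positivity), inv_div]
  have hr0 : 0 < (L / l) ^ ((1:ℝ) / (s - 1)) := Real.rpow_pos_of_pos (by positivity) _
  rw [hrinv, hy2]
  rw [← div_eq_mul_inv, div_div]
  apply div_le_div_of_nonneg_left hl.le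
  · have : (0:ℝ) < s - 1 := by linarith
    positivity
  · have h6 : (0:ℝ) < s - 1 := by linarith
    calc 32 * ((s:ℝ) - 1) * ((16 * s) ^ ((1:ℝ) / (s - 1)) * (L / l) ^ ((1:ℝ) / (s - 1))) ≤
        32 * ((s:ℝ) - 1) * (32 * (L / l) ^ ((1:ℝ) / (s - 1))) := by gcongr
      _ = 1024 * ((s:ℝ) - 1) * (L / l) ^ ((1:ℝ) / (s - 1)) := by ring

end Pool.Agent.Helper99.MVL
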