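import Mathlib
import Pool.Agent.Helper99.MVL.Iv
import Pool.Agent.Helper99.MK.R1

/-!
# Polynomials in one variable
-/

set_option autoImplicit false

open Finset MeasureTheory Filter

namespace Pool.Agent.Helper99.MVL

open Pool.Agent.H261R2.CM (tv mM spec AsympIndep mM_lower asympIndep_pow equidist_log ev1 F_ev1)
open Pool.Agent.H338R2.AS (es sp lm Sim small_values)
open Pool.Agent.H338R2.AS.T3 (es_continuous lm_eq log_integrable)
open Pool.Agent.Helper99.MK (mK SS tail_bound)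

variable {k m : ℕ}

/-- the exponents of the specialisation -/
def ax (α : Fin k → Fin (m + 1) → ℕ) (e : Fin (m + 1) → ℕ) : Fin k → ℕ :=
  fun j => ∑ l, e l * α j l

lemma spec_PV (c : Fin k → ℤ) (α : Fin k → Fin (m + 1) → ℕ) (e : Fin (m + 1) → ℕ) :
    spec e (PV c α (fun _ => (1:ℤ))) = sp c (ax α e) := by
  unfold PV spec sp ax
  rw [map_sum]
  refine Finset.sum_congr rfl fun j _ => ?_
  rw [map_mul, map_prod, mul_one, Int.cast_id, MvPolynomial.aeval_C, Polynomial.algebraMap_apply,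
    ← Finset.prod_pow_eq_pow_sum]
  congr 1
  refine Finset.prod_congr rfl fun l _ => ?_
  rw [map_pow, MvPolynomial.aeval_X, ← pow_mul]

lemma ev1_sp (c : Fin k → ℤ) (a : Fin k → ℕ) (t : ℝ) :
    ev1 (sp c a) t = es (fun j => (c j : ℂ)) (fun j => (a j : ℤ)) t := by
  unfold ev1 Pool.Agent.H261R2.CM.toC sp es Pool.Agent.H261R2.CM.ez
  rw [Polynomial.map_sum, Polynomial.eval_finsetSum]
  refine Finset.sum_congr rfl fun j _ => ?_
  rw [Polynomial.map_mul, Polynomial.map_C, Polynomial.map_pow, Polynomial.map_X,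
    Polynomial.eval_mul, Polynomial.eval_C, Polynomial.eval_pow, Polynomial.eval_X,
    ← Complex.exp_nat_mul, eq_intCast]
  congr 2
  push_cast
  ring

/-- lower semicontinuity -/
lemma semicont {r : ℕ} (hr : 1 ≤ r) (c : Fin (r + 1) → ℤ) (hc : ∀ j, c j ≠ 0)
    (α : Fin (r + 1) → Fin (m + 1) → ℕ) (E : ℕ → Fin (m + 1) → ℕ) (hE : AsympIndep atTop E)
    (hinj : ∀ᶠ n in atTop, Function.Injective (ax α (E n)))
    (hP0 : PV c α (fun _ => (1:ℤ)) ≠ 0) {ε : ℝ} (hε : 0 < ε) :
    ∀ᶠ n in atTop, Real.log (mM (PV c α (fun _ => (1:ℤ)))) ≤ lm (sp c (ax α (E n))) + ε := by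
  set P := PV c α (fun _ => (1:ℤ)) with hP
  set H : ℝ := ‖(c 0 : ℂ)‖ with hH
  have hHpos : 0 < H := by
    rw [hH, norm_pos_iff]
    exact Int.cast_ne_zero.mpr (hc 0)
  have hr0 : (0:ℝ) < r := by exact_mod_cast hr
  have hl2 : 0 < Real.log 2 := Real.log_pos (by norm_num)
  set s : ℝ := ε / (3 * ((r * Real.log 2) * (40 * r))) with hs
  have hs0 : 0 < s := by positivity
  have herr : (r * Real.log 2) * (40 * r * s) = ε / 3 := by
    rw [hs]
    field_simp
  set δ : ℝ := (s / 2) ^ r * H with hδ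
  have hδ0 : 0 < δ := by positivity
  set δ' : ℝ := δ ^ 2 * (ε / 3) with hδ'
  have hδ'0 : 0 < δ' := by positivity
  have hlow := mM_lower P hP0 δ' hδ'0
  have hconv := equidist_log atTop E hE P 0 δ' hδ'0
  have hz : ∀ e : Fin (m + 1) → ℕ, ∀ t, ev1 (spec e (0 : MvPolynomial (Fin (m + 1)) ℤ)) t = 0 := by
    intro e t
    rw [map_zero]
    unfold ev1 Pool.Agent.H261R2.CM.toC
    simp
  have hz2 : ∀ t, tv (0 : MvPolynomial (Fin (m + 1)) ℤ) t = 0 := by
    intro t
    unfold tv
    simp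
  simp only [hz, hz2, norm_zero, ne_eq, OfNat.ofNat_ne_zero, not_false_eq_true, zero_pow,
    add_zero] at hconv
  have hev : ∀ᶠ n in atTop, (∫ t in Set.Icc (0 : Fin (m + 1) → ℝ) 1,
      Real.log (‖tv P t‖ ^ 2 + δ')) - ε / 3 <
      ∫ t in (0:ℝ)..1, Real.log (‖ev1 (spec (E n) P) t‖ ^ 2 + δ') :=
    hconv.eventually_const_lt (by linarith)
  filter_upwards [hev, hinj] with n hn hinjn
  set a := ax α (E n) with ha
  have hF : spec (E n) P = sp c a := spec_PV c α (E n)
  simp only [hF, ev1_sp] at hn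
  set C : Fin (r + 1) → ℂ := fun j => (c j : ℂ) with hC
  set A : Fin (r + 1) → ℤ := fun j => (a j : ℤ) with hA
  have hAinj : Function.Injective A := fun x y hxy => hinjn (Nat.cast_injective hxy)
  have htail := tail_bound hr (es_continuous C A) hHpos hs0
    (fun s hs => small_values C A hAinj 0 s hs) (log_integrable c a)
  rw [← lm_eq] at htail
  have hcont1 : Continuous fun t => Real.log (‖es C A t‖ ^ 2 + δ') := by
    apply Continuous.log
    · have := (es_continuous C A).norm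
      fun_prop
    · intro t
      positivity
  have hcont2 : Continuous fun t => Real.log (max ‖es C A t‖ δ) := by
    apply Continuous.log
    · exact (es_continuous C A).norm.max continuous_const
    · intro t
      exact (lt_max_of_lt_right hδ0).ne'
  have hcont3 : Continuous fun t => 2 * Real.log (max ‖es C A t‖ δ) := continuous_const.mul hcont2
  have hcont4 : Continuous fun t => 2 * Real.log (max ‖es C A t‖ δ) + ε / 3 :=
    hcont3.add continuous_const
  have hcmp : ∫ t in (0:ℝ)..1, Real.log (‖es C A t‖ ^ 2 + δ') ≤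
      ∫ t in (0:ℝ)..1, (2 * Real.log (max ‖es C A t‖ δ) + ε / 3) := by
    apply intervalIntegral.integral_mono_on zero_le_one (hcont1.intervalIntegrable _ _)
      (hcont4.intervalIntegrable _ _)
    intro t _
    set x := ‖es C A t‖ with hx
    have hx0 : 0 ≤ x := norm_nonneg _
    have hmx : 0 < max x δ := lt_max_of_lt_right hδ0
    have h1 : x ^ 2 + δ' ≤ (max x δ) ^ 2 * Real.exp (ε / 3) := by
      have h2 : x ^ 2 ≤ (max x δ) ^ 2 := pow_le_pow_left₀ hx0 (le_max_left _ _) 2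
      have h3 : δ ^ 2 ≤ (max x δ) ^ 2 := pow_le_pow_left₀ hδ0.le (le_max_right _ _) 2
      have h4 := Real.add_one_le_exp (ε / 3)
      calc x ^ 2 + δ' ≤ (max x δ) ^ 2 + (max x δ) ^ 2 * (ε / 3) := by
            apply add_le_add h2
            rw [hδ']
            exact mul_le_mul_of_nonneg_right h3 (by positivity)
        _ = (max x δ) ^ 2 * (ε / 3 + 1) := by ring
        _ ≤ _ := mul_le_mul_of_nonneg_left h4 (by positivity)
    calc Real.log (x ^ 2 + δ') ≤ Real.log ((max x δ) ^ 2 * Real.exp (ε / 3)) :=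
          Real.log_le_log (by positivity) h1
      _ = _ := by
          rw [Real.log_mul (by positivity) (Real.exp_pos _).ne', Real.log_pow, Real.log_exp]
          push_cast
          ring
  rw [intervalIntegral.integral_add (hcont3.intervalIntegrable _ _)
    intervalIntegrable_const, intervalIntegral.integral_const_mul,
    intervalIntegral.integral_const] at hcmp
  simp only [sub_zero, one_smul] at hcmp
  have h5 := htail.2
  rw [herr] at h5
  linarith

/-- the relations of the specialisations -/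
lemma sim_ev {M : ℕ} (B : Fin (m + 1) → ℕ) (E : ℕ → Fin (m + 1) → ℕ)
    (hE : AsympIndep atTop E) :
    ∀ᶠ n in atTop, ∀ v : Fin (m + 1) → ℤ, v ≠ 0 → (∀ l, |v l| ≤ (M * B l : ℕ)) →
      ∑ l, v l * (E n l : ℤ) ≠ 0 := by
  have h1 : ∀ᶠ n in atTop, ∀ v ∈ Finset.Icc (fun l => -((M * B l : ℕ) : ℤ))
      (fun l => ((M * B l : ℕ) : ℤ)), v ≠ 0 → ∑ l, v l * (E n l : ℤ) ≠ 0 := by
    rw [Filter.eventually_all_finset]
    intro v _
    by_cases hv : v = 0
    · exact Eventually.of_forall fun n h => absurd hv h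
    · filter_upwards [hE v hv] with n hn _
      exact hn
  filter_upwards [h1] with n hn v hv hvB
  apply hn v _ hv
  rw [Finset.mem_Icc]
  exact ⟨fun l => (abs_le.mp (hvB l)).1, fun l => (abs_le.mp (hvB l)).2⟩

lemma comb_bound {u : Fin k → ℤ} (hu : ∑ j, u j = 0) {M : ℕ} (hM : ∑ j, |u j| ≤ 2 * M)
    {a : Fin k → ℕ} {B : ℕ} (ha : ∀ j, a j ≤ B) : |∑ j, u j * (a j : ℤ)| ≤ (M * B : ℕ) := by
  have h1 : 2 * ∑ j, u j * (a j : ℤ) = ∑ j, u j * (2 * a j - B : ℤ) := by
    rw [Finset.mul_sum]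
    have : ∑ j, u j * (2 * a j - B : ℤ) = ∑ j, 2 * (u j * (a j : ℤ)) - (∑ j, u j) * B := by
      rw [Finset.sum_mul, ← Finset.sum_sub_distrib]
      exact Finset.sum_congr rfl fun j _ => by ring
    rw [this, hu]
    simp
  have h2 : |∑ j, u j * (2 * a j - B : ℤ)| ≤ 2 * M * B := by
    calc |∑ j, u j * (2 * a j - B : ℤ)| ≤ ∑ j, |u j * (2 * a j - B : ℤ)| :=
          Finset.abs_sum_le_sum_abs _ _
      _ ≤ ∑ j, |u j| * B := by
          refine Finset.sum_le_sum fun j _ => ?_
          rw [abs_mul]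
          apply mul_le_mul_of_nonneg_left _ (abs_nonneg _)
          have h3 : (a j : ℤ) ≤ B := by exact_mod_cast ha j
          have h4 : (0:ℤ) ≤ a j := Int.natCast_nonneg _
          rw [abs_le]
          constructor <;> linarith
      _ = (∑ j, |u j|) * B := by rw [Finset.sum_mul]
      _ ≤ 2 * M * B := by
          apply mul_le_mul_of_nonneg_right hM (Int.natCast_nonneg _)
  rw [← h1, abs_mul] at h2
  push_cast
  have h5 : |(2:ℤ)| = 2 := rfl
  rw [h5] at h2
  linarith

lemma mK_bound {k : ℕ} (hk : 2 ≤ k) {η : ℝ} (hη : 0 < η) (hη1 : η ≤ 1) :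
    (mK k η : ℝ) ≤ 10 ^ 19 * (k : ℝ) ^ 27 / η ^ 8 := by
  have hS2 := Pool.Agent.Helper99.MK.SS_le hk hη hη1
  unfold mK
  set S := SS k η with hS
  push_cast
  calc (k:ℝ) * (288 * (k:ℝ) * (S:ℝ) ^ 2) ^ 2
      ≤ (k:ℝ) * (288 * (k:ℝ) * (2561 * (k:ℝ) ^ 6 / η ^ 2) ^ 2) ^ 2 := by
        gcongr
    _ = (82944 * 2561 ^ 4) * (k:ℝ) ^ 27 / η ^ 8 := by
        field_simp
        ring
    _ ≤ 10 ^ 19 * (k:ℝ) ^ 27 / η ^ 8 := by
        gcongr
        norm_num

/-- the measure of a polynomial in one variable with generic exponents -/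
theorem one_var {s : ℕ} (P : MvPolynomial (Fin s) ℤ) (hP : FullDim P) (hs : 0 < s) {η : ℝ}
    (hη : 0 < η) (hη1 : η ≤ 1) (r : Fin s → ℕ)
    (hrel : ∀ u : Fin s → ℤ, u ≠ 0 →
      (∀ i, (|u i| : ℝ) ≤ 10 ^ 19 * (P.support.card : ℝ) ^ 27 / η ^ 8 * P.degreeOf i) →
      ∑ i, u i * (r i : ℤ) ≠ 0) :
    Real.log (mM P) ≤ Real.log ((MvPolynomial.aeval (fun i => (Polynomial.X : Polynomial ℤ) ^ (r i))
      P).map (Int.castRingHom ℂ)).mahlerMeasure + η := by
  obtain ⟨m, rfl⟩ : ∃ m, s = m + 1 := ⟨s - 1, by omega⟩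
  obtain ⟨k, c, α, hα, hfull, hc, _, _, _, hk2, hkcard, hPV⟩ := exists_data P ⟨0, hs⟩ hP
  have h2 : MvPolynomial.map (Int.castRingHom ℤ) P = P := by
    rw [show Int.castRingHom ℤ = RingHom.id ℤ from rfl, MvPolynomial.map_id]
  have hPeq : PV c α (fun _ => (1:ℤ)) = P := by rw [hPV, h2]
  have hP0 : PV c α (fun _ => (1:ℤ)) ≠ 0 := by
    intro h0
    have := PV_coeff c hα (fun _ => (1:ℤ)) ⟨0, by omega⟩
    rw [h0, MvPolynomial.coeff_zero] at this
    apply hc ⟨0, by omega⟩
    simpa using this.symm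
  have hB : ∀ j l, α j l ≤ P.degreeOf l := by
    intro j l
    rw [MvPolynomial.degreeOf_eq_sup]
    have hmem : fs (α j) ∈ P.support := by
      rw [MvPolynomial.mem_support_iff, ← hPeq, PV_coeff c hα]
      simpa using hc j
    exact Finset.le_sup (f := fun m : Fin (m + 1) →₀ ℕ => m l) hmem
  set M := mK k η with hM
  have hMb : (M : ℝ) ≤ 10 ^ 19 * (P.support.card : ℝ) ^ 27 / η ^ 8 := by
    rw [← hkcard]
    exact mK_bound hk2 hη hη1
  have hM1 : 1 ≤ M := by
    rw [hM]
    unfold mK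
    have h1 := Pool.Agent.Helper99.MK.SS_pos hk2 hη
    have : 0 < k := by omega
    have : 0 < SS k η := by omega
    exact Nat.succ_le_of_lt (by positivity)
  have hrel2 : ∀ v : Fin (m + 1) → ℤ, v ≠ 0 → (∀ l, |v l| ≤ (M * P.degreeOf l : ℕ)) →
      ∑ l, v l * (r l : ℤ) ≠ 0 := by
    intro v hv hvB
    apply hrel v hv
    intro i
    have h1 : (|v i| : ℝ) ≤ (M * P.degreeOf i : ℕ) := by exact_mod_cast hvB i
    refine h1.trans ?_
    push_cast
    exact mul_le_mul_of_nonneg_right hMb (Nat.cast_nonneg _)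
  set E : ℕ → Fin (m + 1) → ℕ := fun n l => n ^ (l : ℕ) with hE
  have hEind : AsympIndep atTop E := asympIndep_pow (m + 1)
  have hsim := sim_ev (M := M) (fun l => P.degreeOf l) E hEind
  -- the vector of a relation
  have hswap : ∀ (u : Fin k → ℤ) (e : Fin (m + 1) → ℕ), ∑ j, u j * ((ax α e j : ℕ) : ℤ) =
      ∑ l, (∑ j, u j * (α j l : ℤ)) * (e l : ℤ) := by
    intro u e
    unfold ax
    push_cast
    simp only [Finset.mul_sum, Finset.sum_mul]
    rw [Finset.sum_comm]
    refine Finset.sum_congr rfl fun l _ => Finset.sum_congr rfl fun j _ => by ring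
  have hinjE : ∀ e : Fin (m + 1) → ℕ, (∀ v : Fin (m + 1) → ℤ, v ≠ 0 →
      (∀ l, |v l| ≤ (M * P.degreeOf l : ℕ)) → ∑ l, v l * (e l : ℤ) ≠ 0) →
      Function.Injective (ax α e) := by
    intro e he j j' hjj'
    by_contra hne
    apply he (fun l => (α j l : ℤ) - α j' l)
    · intro h0
      apply hne
      apply hα
      funext l
      have := congrFun h0 l
      simp only [Pi.zero_apply] at this
      omega
    · intro l
      have h1 := hB j l
      have h3 := hB j' l
      have h4 : P.degreeOf l ≤ M * P.degreeOf l := Nat.le_mul_of_pos_left _ hM1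
      rw [abs_le]
      constructor <;> push_cast <;> [skip; skip] <;>
        (have h5 : ((P.degreeOf l : ℕ) : ℤ) ≤ (M : ℤ) * (P.degreeOf l : ℕ) := by exact_mod_cast h4
         omega)
    · have h1 : ((ax α e j : ℕ) : ℤ) = ((ax α e j' : ℕ) : ℤ) := by rw [hjj']
      unfold ax at h1
      push_cast at h1
      have h3 : ∑ l, ((α j l : ℤ) - α j' l) * (e l : ℤ) =
          ∑ l, (e l : ℤ) * (α j l : ℤ) - ∑ l, (e l : ℤ) * (α j' l : ℤ) := by
        rw [← Finset.sum_sub_distrib]
        exact Finset.sum_congr rfl fun l _ => by ring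
      rw [h3, h1, sub_self]
  have hinj : ∀ᶠ n in atTop, Function.Injective (ax α (E n)) := by
    filter_upwards [hsim] with n hn
    exact hinjE (E n) hn
  have hrinj : Function.Injective (ax α r) := hinjE r hrel2
  obtain ⟨r', rfl⟩ : ∃ r', k = r' + 1 := ⟨k - 1, by omega⟩
  have hF : (MvPolynomial.aeval (fun i => (Polynomial.X : Polynomial ℤ) ^ (r i)) P) =
      sp c (ax α r) := by
    rw [← spec_PV, hPeq]
    rfl
  rw [hF]
  have hlm : Real.log ((sp c (ax α r)).map (Int.castRingHom ℂ)).mahlerMeasure =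
      lm (sp c (ax α r)) := by
    unfold lm
    rw [Polynomial.logMahlerMeasure_eq_log_MahlerMeasure]
  rw [hlm]
  apply le_of_forall_pos_le_add
  intro ε hε
  have hsc := semicont (by omega : 1 ≤ r') c hc α E hEind hinj hP0 hε
  obtain ⟨n, hn1, hn2, hn3⟩ := (hsim.and (hinj.and hsc)).exists
  have hsimn : Sim M (fun j => ((ax α r j : ℕ) : ℤ)) (fun j => ((ax α (E n) j : ℕ) : ℤ)) := by
    intro u hu huM
    rw [hswap, hswap]
    set v : Fin (m + 1) → ℤ := fun l => ∑ j, u j * (α j l : ℤ) with hv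
    by_cases hv0 : v = 0
    · have : ∀ l, ∑ j, u j * (α j l : ℤ) = 0 := fun l => congrFun hv0 l
      simp [this]
    · have hvB : ∀ l, |v l| ≤ (M * P.degreeOf l : ℕ) := fun l =>
        comb_bound hu huM (fun j => hB j l)
      have h1 := hrel2 v hv0 hvB
      have h3 := hn1 v hv0 hvB
      exact ⟨fun h => absurd h h1, fun h => absurd h h3⟩
  have hst := Pool.Agent.Helper99.MK.stable hk2 c hc (ax α r) (ax α (E n)) hrinj hn2 hη hη1
    le_rfl hsimn
  rw [abs_le] at hst
  rw [hPeq] at hn3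
  linarith [hst.1]

end Pool.Agent.Helper99.MVL
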