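import Mathlib
import Pool.Agent.Helper99.MVL.Ov

/-!
# Monomial substitutions
-/

set_option autoImplicit false

open Finset MeasureTheory Filter

namespace Pool.Agent.Helper99.MVL

open Pool.Agent.Helper99.TD
open Pool.Agent.H261R2.CM (tv mM spec AsympIndep mM_upper asympIndep_pow equidist_log ev1 F_ev1
  spec_ne_zero)

/-- no relation in a box -/
def NoRel {s : ℕ} (B : Fin s → ℝ) (r : Fin s → ℕ) : Prop :=
  ∀ u : Fin s → ℤ, u ≠ 0 → (∀ i, (|u i| : ℝ) ≤ B i) → ∑ i, u i * (r i : ℤ) ≠ 0

/-- the monomial substitution -/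
noncomputable def msub {s t : ℕ} (a : Fin s → Fin t → ℕ) (P : MvPolynomial (Fin s) ℤ) :
    MvPolynomial (Fin t) ℤ :=
  MvPolynomial.aeval (fun i => ∏ l, (MvPolynomial.X l : MvPolynomial (Fin t) ℤ) ^ (a i l)) P

lemma spec_msub {s t : ℕ} (a : Fin s → Fin t → ℕ) (P : MvPolynomial (Fin s) ℤ)
    (e : Fin t → ℕ) :
    spec e (msub a P) = MvPolynomial.aeval
      (fun i => (Polynomial.X : Polynomial ℤ) ^ (∑ l, e l * a i l)) P := by
  unfold msub spec
  rw [← AlgHom.comp_apply, MvPolynomial.comp_aeval]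
  congr 2
  funext i
  rw [map_prod, ← Finset.prod_pow_eq_pow_sum]
  refine Finset.prod_congr rfl fun l _ => ?_
  rw [map_pow, MvPolynomial.aeval_X, ← pow_mul]

lemma norel_ev {s t : ℕ} (a : Fin s → Fin t → ℕ) (B : Fin s → ℝ)
    (h : ∀ u : Fin s → ℤ, u ≠ 0 → (∀ i, (|u i| : ℝ) ≤ B i) → ∃ l, ∑ i, u i * (a i l : ℤ) ≠ 0)
    (E : ℕ → Fin t → ℕ) (hE : AsympIndep atTop E) :
    ∀ᶠ n in atTop, NoRel B (fun i => ∑ l, E n l * a i l) := by
  have h1 : ∀ᶠ n in atTop, ∀ u ∈ Finset.Icc (fun i => -⌊B i⌋) (fun i => ⌊B i⌋),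
      (∃ l, ∑ i, u i * (a i l : ℤ) ≠ 0) → ∑ i, u i * ((∑ l, E n l * a i l : ℕ) : ℤ) ≠ 0 := by
    rw [Filter.eventually_all_finset]
    intro u _
    by_cases hu : ∃ l, ∑ i, u i * (a i l : ℤ) ≠ 0
    · obtain ⟨l0, hl0⟩ := hu
      have hv : (fun l => ∑ i, u i * (a i l : ℤ)) ≠ 0 := fun h0 => hl0 (congrFun h0 l0)
      filter_upwards [hE _ hv] with n hn _
      have h3 : ∑ i, u i * ((∑ l, E n l * a i l : ℕ) : ℤ) =
          ∑ l, (∑ i, u i * (a i l : ℤ)) * (E n l : ℤ) := by
        push_cast
        simp only [Finset.mul_sum, Finset.sum_mul]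
        rw [Finset.sum_comm]
        refine Finset.sum_congr rfl fun l _ => Finset.sum_congr rfl fun i _ => by ring
      rw [h3]
      exact hn
    · exact Eventually.of_forall fun n h => absurd h hu
  filter_upwards [h1] with n hn u hu huB
  apply hn u _ (h u hu huB)
  rw [Finset.mem_Icc]
  constructor
  · intro i
    have h2 := huB i
    have h3 : |u i| ≤ ⌊B i⌋ := Int.le_floor.mpr (by exact_mod_cast h2)
    exact (abs_le.mp h3).1
  · intro i
    have h2 := huB i
    have h3 : |u i| ≤ ⌊B i⌋ := Int.le_floor.mpr (by exact_mod_cast h2)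
    exact (abs_le.mp h3).2

lemma subst_ne {s : ℕ} (P : MvPolynomial (Fin s) ℤ) (hP : P ≠ 0) {B : Fin s → ℝ}
    (hB : ∀ i, (P.degreeOf i : ℝ) ≤ B i) {r : Fin s → ℕ} (hr : NoRel B r) :
    MvPolynomial.aeval (fun i => (Polynomial.X : Polynomial ℤ) ^ (r i)) P ≠ 0 := by
  classical
  obtain ⟨a, ha⟩ := MvPolynomial.support_nonempty.mpr hP
  intro h0
  have h1 : MvPolynomial.aeval (fun i => (Polynomial.X : Polynomial ℤ) ^ (r i)) P =
      ∑ b ∈ P.support, Polynomial.C (P.coeff b) * Polynomial.X ^ (∑ i, b i * r i) :=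
    Pool.Agent.H261R2.CM.F_spec_eq r P
  rw [h1] at h0
  have h2 := congrArg (fun q => Polynomial.coeff q (∑ i, a i * r i)) h0
  simp only [Polynomial.finsetSum_coeff, Polynomial.coeff_C_mul, Polynomial.coeff_X_pow,
    Polynomial.coeff_zero] at h2
  rw [Finset.sum_eq_single a] at h2
  · rw [if_pos rfl, mul_one] at h2
    exact (MvPolynomial.mem_support_iff.mp ha) h2
  · intro b hb hba
    rw [if_neg, mul_zero]
    intro h3
    apply hr (fun i => (a i : ℤ) - b i)
    · intro h4
      apply hba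
      ext i
      have := congrFun h4 i
      simp only [Pi.zero_apply] at this
      omega
    · intro i
      have h5 : a i ≤ P.degreeOf i := by
        rw [MvPolynomial.degreeOf_eq_sup]
        exact Finset.le_sup (f := fun m : Fin s →₀ ℕ => m i) ha
      have h6 : b i ≤ P.degreeOf i := by
        rw [MvPolynomial.degreeOf_eq_sup]
        exact Finset.le_sup (f := fun m : Fin s →₀ ℕ => m i) hb
      refine le_trans ?_ (hB i)
      have h7 : |(a i : ℤ) - b i| ≤ P.degreeOf i := by
        rw [abs_le]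
        constructor <;> omega
      exact_mod_cast h7
    · have h8 : ∑ i, ((a i : ℤ) - b i) * (r i : ℤ) =
          ((∑ i, a i * r i : ℕ) : ℤ) - ((∑ i, b i * r i : ℕ) : ℤ) := by
        push_cast
        rw [← Finset.sum_sub_distrib]
        exact Finset.sum_congr rfl fun i _ => by ring
      rw [h8, h3, sub_self]
  · intro h
    exact absurd ha h

/-- the measure of a monomial substitution without short relations -/
theorem subst {s t : ℕ} (P : MvPolynomial (Fin s) ℤ) (hP : FullDim P) (hs : 0 < s) {η : ℝ}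
    (hη : 0 < η) (hη1 : η ≤ 1) (a : Fin s → Fin t → ℕ)
    (hrel : ∀ u : Fin s → ℤ, u ≠ 0 →
      (∀ i, (|u i| : ℝ) ≤ 10 ^ 19 * (P.support.card : ℝ) ^ 27 / η ^ 8 * P.degreeOf i) →
      ∃ l, ∑ i, u i * (a i l : ℤ) ≠ 0) :
    Real.log (mM P) ≤ Real.log (mM (msub a P)) + η := by
  set B : Fin s → ℝ := fun i => 10 ^ 19 * (P.support.card : ℝ) ^ 27 / η ^ 8 * P.degreeOf i with hB
  have hP0 : P ≠ 0 := by
    rintro rfl
    have := hP (fun _ => 1) (by simp)
    have := congrFun this ⟨0, hs⟩
    simp at this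
  have hcard : (1:ℝ) ≤ P.support.card := by
    exact_mod_cast Finset.card_pos.mpr (MvPolynomial.support_nonempty.mpr hP0)
  have hBdeg : ∀ i, (P.degreeOf i : ℝ) ≤ B i := by
    intro i
    rw [hB]
    dsimp only
    apply le_mul_of_one_le_left (Nat.cast_nonneg _)
    rw [le_div_iff₀ (by positivity), one_mul]
    calc η ^ 8 ≤ 1 := pow_le_one₀ hη.le hη1
      _ ≤ 10 ^ 19 * (P.support.card : ℝ) ^ 27 :=
        one_le_mul_of_one_le_of_one_le (by norm_num) (one_le_pow₀ hcard)
  set E : ℕ → Fin t → ℕ := fun n l => n ^ (l : ℕ) with hE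
  have hEind : AsympIndep atTop E := asympIndep_pow t
  have hev := norel_ev a B hrel E hEind
  have hQ0 : msub a P ≠ 0 := by
    obtain ⟨n, hn⟩ := hev.exists
    intro h0
    have h1 := subst_ne P hP0 hBdeg hn
    rw [← spec_msub, h0, map_zero] at h1
    exact h1 rfl
  have key : ∀ x : ℝ, 2 * Real.log (mM (msub a P)) < x → 2 * Real.log (mM P) - 2 * η ≤ x := by
    intro x hx
    obtain ⟨δ, hδ, hδx⟩ := mM_upper (msub a P) hQ0 x hx
    have hconv := equidist_log atTop E hEind (msub a P) 0 δ hδ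
    have hz : ∀ e : Fin t → ℕ, ∀ y, ev1 (spec e (0 : MvPolynomial (Fin t) ℤ)) y = 0 := by
      intro e y
      rw [map_zero]
      unfold ev1 Pool.Agent.H261R2.CM.toC
      simp
    have hz2 : ∀ y, tv (0 : MvPolynomial (Fin t) ℤ) y = 0 := by
      intro y
      unfold tv
      simp
    simp only [hz, hz2, norm_zero, ne_eq, OfNat.ofNat_ne_zero, not_false_eq_true, zero_pow,
      add_zero] at hconv
    obtain ⟨n, hn1, hn2⟩ := ((hconv.eventually_lt_const hδx).and hev).exists
    have hF0 := subst_ne P hP0 hBdeg hn2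
    have hone := one_var P hP hs hη hη1 _ hn2
    rw [← spec_msub] at hF0 hone
    set F := spec (E n) (msub a P) with hF
    have hlm : Real.log (F.map (Int.castRingHom ℂ)).mahlerMeasure =
        (F.map (Int.castRingHom ℂ)).logMahlerMeasure := by
      rw [Polynomial.logMahlerMeasure_eq_log_MahlerMeasure]
    rw [hlm] at hone
    have hFC : F.map (Int.castRingHom ℂ) ≠ 0 := by
      rw [Ne, Polynomial.map_eq_zero_iff (RingHom.injective_int _)]
      exact hF0
    have hcont : Continuous fun y : ℝ => (1 / 2 : ℝ) * Real.log (‖ev1 F y‖ ^ 2 + δ) := by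
      apply Continuous.mul continuous_const
      apply Continuous.log
      · have h1 : Continuous fun y : ℝ => ev1 F y := by
          have : (fun y : ℝ => ev1 F y) = fun y => tv (msub a P)
              (Pool.Agent.H261R2.CM.F_cv (E n) y) := by
            funext y
            rw [hF, F_ev1]
          rw [this]
          exact (Pool.Agent.H261R2.CM.F_continuous_tv _).comp
            (Pool.Agent.H261R2.CM.F_continuous_cv _)
        have := h1.norm
        fun_prop
      · intro y
        positivity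
    have hle := lmm_le hFC hcont (by
      intro y hy
      have hey : Polynomial.eval (ep y) (F.map (Int.castRingHom ℂ)) = ev1 F y := rfl
      rw [hey] at hy ⊢
      have hpos : 0 < ‖ev1 F y‖ := norm_pos_iff.mpr hy
      have h1 : Real.log ‖ev1 F y‖ = (1 / 2 : ℝ) * Real.log (‖ev1 F y‖ ^ 2) := by
        rw [Real.log_pow]
        push_cast
        ring
      rw [h1]
      apply mul_le_mul_of_nonneg_left _ (by norm_num)
      apply Real.log_le_log (by positivity)
      linarith)
    rw [intervalIntegral.integral_const_mul] at hle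
    linarith
  have h2 : 2 * Real.log (mM P) - 2 * η ≤ 2 * Real.log (mM (msub a P)) := by
    apply le_of_forall_gt
    intro x hx
    obtain ⟨y, hy1, hy2⟩ := exists_between hx
    exact lt_of_le_of_lt (key y hy1) hy2
  linarith

end Pool.Agent.Helper99.MVL
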